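import Pool.Agent.V8H90.FG.Stm
import Pool.Agent.Y86.SP.Good
import Pool.Agent.R887.Infty
import Pool.Agent.W603.LV.Der

/-!
Regular pluricanonical forms at the places of the generic fibre.
-/

set_option autoImplicit false
set_option linter.unusedSectionVars false

namespace Pool.Agent.V8H90.FG

open FF Polynomial Pool.Agent.W602.GT Pool.Agent.Y742.SP
open Pool.Agent.W603.LV (Ge E2 E2_apply exists_poly)

variable {K : Type} [Field K] [Algebra ℂ K] {L : IntermediateField ℂ K}

theorem isFF_of [Algebra.EssFiniteType ℂ K] {d : ℕ} (hK : Algebra.trdeg ℂ K = (d + 1 : ℕ))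
    {t : Fin d → L} (ht : IsTranscendenceBasis ℂ t) : IsFF L K := by
  refine ⟨Algebra.EssFiniteType.of_comp ℂ L K, ?_⟩
  have h1 : Algebra.trdeg ℂ L = (d : ℕ) := by
    rw [← ht.cardinalMk_eq_trdeg, Cardinal.mk_fin]
  have h2 : Algebra.trdeg ℂ L + Algebra.trdeg L K = Algebra.trdeg ℂ K := _root_.trdeg_add_eq ℂ L
  rw [h1, hK] at h2
  have h3 : Algebra.trdeg L K < Cardinal.aleph0 := by
    have h4 : Algebra.trdeg L K ≤ ((d + 1 : ℕ) : Cardinal) := by
      rw [← h2]
      exact le_add_self
    exact lt_of_le_of_lt h4 (Cardinal.natCast_lt_aleph0 (n := d + 1))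
  obtain ⟨n, hn⟩ := Cardinal.lt_aleph0.1 h3
  rw [hn] at h2 ⊢
  have h5 : d + n = d + 1 := by exact_mod_cast h2
  have h6 : n = 1 := by omega
  rw [h6, Nat.cast_one]

theorem ord_alg' {P : Place ℂ K} (h : TrivOn P L) {x : K} (hx : IsAlgebraic L x) (hx0 : x ≠ 0) :
    P.ord x = 0 := by
  have hr : ∀ a : L, P.Reg (algebraMap L K a) := fun a => by
    by_cases ha : (a : K) = 0
    · exact Or.inl ha
    · exact Or.inr (h a a.2 ha).ge
  have h1 : P.Reg x := P.reg_of_isIntegral (A := L) hr hx.isIntegral
  have h2 : P.Reg x⁻¹ := P.reg_of_isIntegral (A := L) hr hx.inv.isIntegral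
  have h3 := (P.reg_iff hx0).1 h1
  have h4 := (P.reg_iff (inv_ne_zero hx0)).1 h2
  rw [P.ord_inv] at h4
  omega

theorem trans_of_ord {P : Place ℂ K} (h : TrivOn P L) {x : K} (hx : P.ord x ≠ 0) :
    Transcendental L x := by
  intro ha
  by_cases hx0 : x = 0
  · rw [hx0, P.ord_zero] at hx
    exact hx rfl
  · exact hx (ord_alg' h ha hx0)

theorem reg_poly {P : Place ℂ K} (h : TrivOn P L) {f : K} (hf : P.Reg f) (G : L[X]) :
    P.Reg (aeval f G) := by
  induction G using Polynomial.induction_on' with
  | add p q hp hq =>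
    rw [map_add]
    exact P.reg_add hp hq
  | monomial n a =>
    rw [aeval_monomial]
    refine P.reg_mul ?_ ?_
    · by_cases ha : (a : K) = 0
      · exact Or.inl ha
      · exact Or.inr (h a a.2 ha).ge
    · clear * - hf
      induction n with
      | zero => rw [pow_zero]; exact P.reg_one
      | succ n ih => rw [pow_succ]; exact P.reg_mul ih hf

/-- residue fields are algebraic over `L` -/
theorem exists_res [IsFF L K] {P : Place ℂ K} (h : TrivOn P L) {π : K} (hπ : P.ord π = 1) {f : K}
    (hf : P.Reg f) : ∃ q : L[X], q ≠ 0 ∧ Ge P 1 (aeval f q) := by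
  have hπr : P.Reg π := Or.inr (by omega)
  by_cases hfa : IsAlgebraic L f
  · obtain ⟨q, hq, h0⟩ := hfa
    exact ⟨q, hq, Or.inl h0⟩
  · have : CharZero L := charZero_of_injective_algebraMap (algebraMap ℂ L).injective
    obtain ⟨G0, hG0, hG0'⟩ := exists_poly (k := L) (t := f) hfa π
    have hG00 : G0 ≠ 0 := by
      rintro rfl
      rw [derivative_zero, map_zero] at hG0'
      exact hG0' rfl
    -- a nonzero relation of minimal degree
    have hex : ∃ n, ∃ G : L[X][X], G ≠ 0 ∧ E2 f π G = 0 ∧ G.natDegree = n :=
      ⟨_, G0, hG00, hG0, rfl⟩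
    classical
    obtain ⟨G, hG, hGz, hGn⟩ := Nat.find_spec hex
    have hmin := fun m (hm : m < Nat.find hex) => Nat.find_min hex hm
    have hπ0 : π ≠ 0 := by
      rintro rfl
      rw [P.ord_zero] at hπ
      omega
    have hG2 : E2 f π G = aeval f (G.coeff 0) + π * E2 f π G.divX := by
      conv_lhs => rw [← G.divX_mul_X_add]
      rw [map_add, map_mul, E2_apply, E2_apply, E2_apply, eval₂_X, eval₂_C]
      simp only [AlgHom.coe_toRingHom]
      ring
    have hc0 : G.coeff 0 ≠ 0 := by
      intro h0
      rw [h0, map_zero, zero_add, hGz] at hG2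
      have h1 : E2 f π G.divX = 0 := by
        rcases mul_eq_zero.1 hG2.symm with h2 | h2
        · exact absurd h2 hπ0
        · exact h2
      have h2 : G.natDegree ≠ 0 := by
        intro h3
        rw [natDegree_eq_zero] at h3
        obtain ⟨c, rfl⟩ := h3
        rw [coeff_C_zero] at h0
        rw [h0, C_0] at hG
        exact hG rfl
      have h3 : G.divX ≠ 0 := by
        intro h4
        apply h2
        rw [divX_eq_zero_iff] at h4
        rw [h4, natDegree_C]
      refine hmin (G.divX.natDegree) ?_ ⟨G.divX, h3, h1, rfl⟩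
      rw [← hGn, natDegree_divX_eq_natDegree_tsub_one]
      omega
    refine ⟨G.coeff 0, hc0, ?_⟩
    have h1 : aeval f (G.coeff 0) = -(π * E2 f π G.divX) := by
      rw [hGz] at hG2
      linear_combination -hG2
    rw [h1]
    have h2 : ∀ H : L[X][X], P.Reg (E2 f π H) := by
      intro H
      induction H using Polynomial.induction_on' with
      | add p q hp hq =>
        rw [map_add]
        exact P.reg_add hp hq
      | monomial n a =>
        rw [Pool.Agent.W603.LV.E2_monomial]
        refine P.reg_mul (reg_poly h hf a) ?_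
        clear * - hπr
        induction n with
        | zero => rw [pow_zero]; exact P.reg_one
        | succ n ih => rw [pow_succ]; exact P.reg_mul ih hπr
    by_cases h3 : E2 f π G.divX = 0
    · left
      rw [h3, mul_zero, neg_zero]
    · right
      rw [P.ord_neg, P.ord_mul hπ0 h3, hπ]
      have := (P.reg_iff h3).1 (h2 G.divX)
      omega

/-- polynomials with simple zeros at the place -/
theorem exists_simple [IsFF L K] {P : Place ℂ K} (h : TrivOn P L) {π : K} (hπ : P.ord π = 1) {f : K}
    (hf : P.Reg f) : ∃ q : L[X], Ge P 1 (aeval f q) ∧ aeval f (derivative q) ≠ 0 ∧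
      P.ord (aeval f (derivative q)) = 0 := by
  classical
  have : CharZero L := charZero_of_injective_algebraMap (algebraMap ℂ L).injective
  have hex : ∃ n, ∃ q : L[X], q ≠ 0 ∧ Ge P 1 (aeval f q) ∧ q.natDegree = n := by
    obtain ⟨q, h1, h2⟩ := exists_res h hπ hf
    exact ⟨_, q, h1, h2, rfl⟩
  obtain ⟨q, hq, hq1, hqn⟩ := Nat.find_spec hex
  have hmin := fun m (hm : m < Nat.find hex) => Nat.find_min hex hm
  have hdeg : q.natDegree ≠ 0 := by
    intro h3
    rw [natDegree_eq_zero] at h3
    obtain ⟨c, rfl⟩ := h3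
    have hc : (c : K) ≠ 0 := by
      intro h4
      apply hq
      have : c = 0 := Subtype.ext h4
      rw [this, C_0]
    rw [aeval_C] at hq1
    rcases hq1 with h4 | h4
    · exact hc h4
    · have h5 : P.ord (algebraMap L K c) = 0 := h c c.2 hc
      omega
  have hd0 : derivative q ≠ 0 := by
    intro h0
    exact hdeg (derivative_eq_zero.1 h0)
  have hlt : (derivative q).natDegree < q.natDegree := natDegree_derivative_lt hdeg
  have h1 : ¬ Ge P 1 (aeval f (derivative q)) := fun h2 =>
    hmin _ (by rw [← hqn]; exact hlt) ⟨derivative q, hd0, h2, rfl⟩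
  unfold Ge at h1
  push Not at h1
  refine ⟨q, hq1, h1.1, ?_⟩
  have h2 := (P.reg_iff h1.1).1 (reg_poly h hf _)
  omega

/-- the derivative of the value of a polynomial -/
theorem reg_der_poly {P : Place ℂ K} (h : TrivOn P L) {F : Derivation ℂ K K}
    (hF : ∀ a ∈ L, F a ∈ L) {f : K} (hf : P.Reg f) (q : L[X]) :
    P.Reg (F (aeval f q) - aeval f (derivative q) * F f) := by
  induction q using Polynomial.induction_on' with
  | add p q hp hq =>
    have e : F (aeval f (p + q)) - aeval f (derivative (p + q)) * F f =
        (F (aeval f p) - aeval f (derivative p) * F f) +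
        (F (aeval f q) - aeval f (derivative q) * F f) := by
      rw [map_add, map_add, derivative_add, map_add]
      ring
    rw [e]
    exact P.reg_add hp hq
  | monomial n a =>
    have e : F (aeval f (monomial n a)) - aeval f (derivative (monomial n a)) * F f =
        F (algebraMap L K a) * f ^ n := by
      rw [aeval_monomial, derivative_monomial, aeval_monomial, Derivation.leibniz,
        Derivation.leibniz_pow, map_mul, map_natCast]
      simp only [smul_eq_mul, nsmul_eq_mul]
      ring
    rw [e]
    refine P.reg_mul ?_ ?_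
    · by_cases ha : F (algebraMap L K a) = 0
      · exact Or.inl ha
      · exact Or.inr (h _ (hF _ a.2) ha).ge
    · clear * - hf
      induction n with
      | zero => rw [pow_zero]; exact P.reg_one
      | succ n ih => rw [pow_succ]; exact P.reg_mul ih hf

/-- derivations which map `L` to `L` and a uniformizer to a regular function are regular -/
theorem derReg_of [Algebra.EssFiniteType ℂ K] {d : ℕ} (hK : Algebra.trdeg ℂ K = (d + 1 : ℕ))
    {t : Fin d → L} (ht : IsTranscendenceBasis ℂ t) {P : Place ℂ K} (h : TrivOn P L) {π : K}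
    (hπ : P.ord π = 1) {F : Derivation ℂ K K} (hF : ∀ a ∈ L, F a ∈ L) (hFπ : P.Reg (F π)) :
    DerReg P F := by
  classical
  have : IsFF L K := isFF_of hK ht
  have hdiv : Divisorial (d + 1) P := Pool.Agent.Y86.SP.sDiv ℂ K L d t ht P h
  have hπ0 : π ≠ 0 := by
    rintro rfl
    rw [P.ord_zero] at hπ
    omega
  have hπr : P.Reg π := Or.inr (by omega)
  obtain ⟨c, hc⟩ := Pool.Agent.R887.reg_scale hK hdiv (z := π) (by omega) F
  have hex : ∃ c, DerReg P (π ^ c • F) := ⟨c, hc c le_rfl⟩
  have hs := Nat.find_spec hex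
  have hmin := fun m (hm : m < Nat.find hex) => Nat.find_min hex hm
  rcases Nat.eq_zero_or_pos (Nat.find hex) with h0 | h0
  · rw [h0, pow_zero, one_smul] at hs
    exact hs
  exfalso
  obtain ⟨m, hm⟩ : ∃ m, Nat.find hex = m + 1 := ⟨Nat.find hex - 1, by omega⟩
  rw [hm] at hs
  refine hmin m (by omega) fun f hf => ?_
  obtain ⟨q, hq1, hq2, hq3⟩ := exists_simple h hπ hf
  have hpow : ∀ n : ℕ, P.Reg (π ^ n) := by
    intro n
    induction n with
    | zero => rw [pow_zero]; exact P.reg_one
    | succ n ih => rw [pow_succ]; exact P.reg_mul ih hπr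
  obtain ⟨g, hg⟩ : ∃ g, g = aeval f q / π := ⟨_, rfl⟩
  have hgr : P.Reg g := by
    rw [hg]
    rcases hq1 with h1 | h1
    · rw [h1, zero_div]
      exact P.reg_zero
    · by_cases h2 : aeval f q = 0
      · rw [h2, zero_div]
        exact P.reg_zero
      · right
        rw [P.ord_div h2 hπ0, hπ]
        omega
  have hfg : aeval f q = π * g := by
    rw [hg]
    field_simp
  have h1 := reg_der_poly h hF hf q
  rw [hfg, Derivation.leibniz] at h1
  simp only [smul_eq_mul] at h1
  have h2 : P.Reg (π ^ (m + 1) * F g) := by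
    have := hs g hgr
    rwa [Derivation.smul_apply, smul_eq_mul] at this
  -- the product
  have h3 : P.Reg (π ^ m * (aeval f (derivative q) * F f)) := by
    have e : π ^ m * (aeval f (derivative q) * F f) = π ^ (m + 1) * F g + π ^ m * (g * F π) +
        -(π ^ m * (π * F g + g * F π - aeval f (derivative q) * F f)) := by ring
    rw [e]
    exact P.reg_add (P.reg_add h2 (P.reg_mul (hpow m) (P.reg_mul hgr hFπ)))
      (P.reg_neg (P.reg_mul (hpow m) h1))
  have e : (π ^ m • F) f = (aeval f (derivative q))⁻¹ * (π ^ m * (aeval f (derivative q) * F f)) := by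
    rw [Derivation.smul_apply, smul_eq_mul]
    field_simp
  rw [e]
  exact P.reg_mul (Or.inr (by rw [P.ord_inv, hq3, neg_zero])) h3

/-- elements with nonzero order are not constants of a nonzero derivation -/
theorem der_ne [IsFF L K] {D : Derivation ℂ K K} (hD : ∀ a ∈ L, D a = 0) (hD0 : D ≠ 0) {x : K}
    (hx : Transcendental L x) : D x ≠ 0 := by
  have : CharZero L := charZero_of_injective_algebraMap (algebraMap ℂ L).injective
  intro h0
  apply hD0
  let D' : Derivation L K K :=
    { toFun := D
      map_add' := map_add D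
      map_smul' := fun a f => by
        rw [Algebra.smul_def, Derivation.leibniz, show D (algebraMap L K a) = 0 from hD a a.2,
          smul_zero, add_zero, RingHom.id_apply, Algebra.smul_def]
        rfl
      map_one_eq_zero' := D.map_one_eq_zero
      leibniz' := fun a b => D.leibniz a b }
  ext f
  obtain ⟨c, hc⟩ := Pool.Agent.W603.LV.ratio hx f
  have h1 := hc D'
  have h2 : D' f = D f := rfl
  have h3 : D' x = D x := rfl
  rw [h2, h3, h0] at h1
  simpa using h1

theorem sLoc : SLoc := by
  classical
  intro K _ _ _ d hK L t ht N ω hω hreg E hE P hP π hπ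
  have : IsFF L K := isFF_of hK ht
  have hD : E (Fin.last d) π ≠ 0 := der_ne hE.last hE.ne (trans_of_ord hP (by rw [hπ]; norm_num))
  obtain ⟨δ, hδ⟩ : ∃ δ, δ = E (Fin.last d) π := ⟨_, rfl⟩
  rw [← hδ] at hD ⊢
  let A : Matrix (Fin (d + 1)) (Fin (d + 1)) K := Matrix.of fun i j =>
    if j = Fin.last d then (if i = Fin.last d then δ⁻¹ else -(E i π / δ)) else
      (if i = j then 1 else 0)
  have hA : ∀ i, ∑ j, A i j • E j = if i = Fin.last d then δ⁻¹ • E (Fin.last d) else
      E i + (-(E i π / δ)) • E (Fin.last d) := by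
    intro i
    rw [Fin.sum_univ_castSucc]
    have h1 : ∀ j : Fin d, A i j.castSucc • E j.castSucc = if i = j.castSucc then E i else 0 := by
      intro j
      have hj : j.castSucc ≠ Fin.last d := (Fin.castSucc_lt_last j).ne
      simp only [A, Matrix.of_apply, if_neg hj]
      split_ifs with h2
      · rw [one_smul, h2]
      · rw [zero_smul]
    simp only [h1]
    simp only [A, Matrix.of_apply, if_true]
    by_cases hi : i = Fin.last d
    · rw [if_pos hi, if_pos hi, Finset.sum_eq_zero, zero_add]
      intro j _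
      rw [if_neg]
      rw [hi]
      exact (Fin.castSucc_lt_last j).ne'
    · rw [if_neg hi, if_neg hi]
      congr 1
      obtain ⟨i', rfl⟩ : ∃ i' : Fin d, i = i'.castSucc :=
        ⟨i.castPred hi, (Fin.castSucc_castPred i hi).symm⟩
      rw [Finset.sum_eq_single i']
      · rw [if_pos rfl]
      · intro j _ hj
        rw [if_neg]
        intro h2
        exact hj (Fin.castSucc_injective d h2).symm
      · intro h2
        exact absurd (Finset.mem_univ _) h2
  have hdet : A.det = δ⁻¹ := by
    have htri : A.BlockTriangular id := by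
      intro i j hij
      have hj : j ≠ Fin.last d := by
        intro h1
        rw [h1] at hij
        exact absurd (Fin.le_last i) (not_le.2 hij)
      simp only [A, Matrix.of_apply, if_neg hj]
      rw [if_neg]
      exact fun h2 => absurd hij (by rw [h2]; exact lt_irrefl _)
    rw [Matrix.det_of_isUpperTriangular htri, Fin.prod_univ_castSucc]
    have h1 : ∀ j : Fin d, A j.castSucc j.castSucc = 1 := by
      intro j
      have hj : j.castSucc ≠ Fin.last d := (Fin.castSucc_lt_last j).ne
      simp only [A, Matrix.of_apply, if_neg hj, if_true]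
    simp only [h1, Finset.prod_const_one, one_mul]
    simp [A]
  have h1 := hω A E
  rw [hdet] at h1
  have h2 : P.Reg (ω fun i => ∑ j, A i j • E j) := by
    refine hreg P (Pool.Agent.Y86.SP.sDiv ℂ K L d t ht P hP) _ fun i => ?_
    rw [hA i]
    split_ifs with hi
    · refine derReg_of hK ht hP hπ (fun a ha => ?_) ?_
      · rw [Derivation.smul_apply, hE.last a ha, smul_zero]
        exact L.zero_mem
      · rw [Derivation.smul_apply, smul_eq_mul, ← hδ, inv_mul_cancel₀ hD]
        exact P.reg_one
    · obtain ⟨i', rfl⟩ : ∃ i' : Fin d, i = i'.castSucc :=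
        ⟨i.castPred hi, (Fin.castSucc_castPred i hi).symm⟩
      refine derReg_of hK ht hP hπ (fun a ha => ?_) ?_
      · rw [Derivation.add_apply, Derivation.smul_apply, hE.last a ha, smul_zero, add_zero]
        exact hE.pres i' a ha
      · rw [Derivation.add_apply, Derivation.smul_apply, smul_eq_mul, ← hδ]
        have : E i'.castSucc π + -(E i'.castSucc π / δ) * δ = 0 := by field_simp; ring
        rw [this]
        exact P.reg_zero
  rw [h1] at h2
  have e : ω E / δ ^ N = δ⁻¹ ^ N * ω E := by
    rw [inv_pow]
    field_simp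
  rw [e]
  exact h2

end Pool.Agent.V8H90.FG
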