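import Pool.Agent.V8H90.FG.Int
import Pool.Agent.V8H90.FG.Loc
import Pool.Agent.Y172.Alg
import Pool.Agent.W602.GT.Sys
import Pool.Agent.Y172.Cov2
import Pool.Agent.W603.LV.Ex

/-!
General fibres of varieties of general type which are fibred in curves: the algebraic part.
-/

set_option autoImplicit false
set_option linter.unusedSectionVars false

namespace Pool.Agent.V8H90.FG

open Polynomial Filter FF Pool.Agent.W602.GT Pool.Agent.Y172

section

variable {K : Type} [Field K] [Algebra ℂ K] {L : IntermediateField ℂ K}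

theorem pres_adj {S : Set K} (hS : S ⊆ L) {F : Derivation ℂ K K} (hF : ∀ s ∈ S, F s ∈ L) {a : K}
    (ha : a ∈ IntermediateField.adjoin ℂ S) : a ∈ L ∧ F a ∈ L := by
  induction ha using IntermediateField.adjoin_induction with
  | mem x hx => exact ⟨hS hx, hF x hx⟩
  | algebraMap x =>
    refine ⟨L.algebraMap_mem x, ?_⟩
    rw [F.map_algebraMap]
    exact L.zero_mem
  | add x y hx hy ihx ihy =>
    refine ⟨L.add_mem ihx.1 ihy.1, ?_⟩
    rw [map_add]
    exact L.add_mem ihx.2 ihy.2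
  | inv x hx ihx =>
    refine ⟨L.inv_mem ihx.1, ?_⟩
    rw [F.leibniz_inv, smul_eq_mul]
    exact L.mul_mem (L.neg_mem (pow_mem (L.inv_mem ihx.1) 2)) ihx.2
  | mul x y hx hy ihx ihy =>
    refine ⟨L.mul_mem ihx.1 ihy.1, ?_⟩
    rw [F.leibniz, smul_eq_mul, smul_eq_mul]
    exact L.add_mem (L.mul_mem ihx.1 ihy.2) (L.mul_mem ihy.1 ihx.2)

theorem pres_alg {M : IntermediateField ℂ K} (hML : M ≤ L) {F : Derivation ℂ K K}
    (hF : ∀ a ∈ M, F a ∈ L) {a : K} (ha : a ∈ L) (halg : IsAlgebraic M a) : F a ∈ L := by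
  have hint := halg.isIntegral
  have h1 := der_poly F M (minpoly M a) a
  rw [minpoly.aeval, map_zero] at h1
  have h2 : Polynomial.aeval a (Polynomial.derivative (minpoly M a)) ≠ 0 :=
    (minpoly.irreducible hint).separable.aeval_derivative_ne_zero (minpoly.aeval _ _)
  have h3 : ∀ p : M[X], Polynomial.aeval a p ∈ L := by
    intro p
    rw [aeval_eq_sum_range]
    refine L.sum_mem fun i _ => ?_
    rw [Algebra.smul_def]
    exact L.mul_mem (hML (p.coeff i).2) (pow_mem ha i)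
  have h4 : (minpoly M a).sum (fun i c => F (c : K) * a ^ i) ∈ L := by
    rw [Polynomial.sum]
    exact L.sum_mem fun i _ => L.mul_mem (hF _ ((minpoly M a).coeff i).2) (pow_mem ha i)
  have h5 : F a = -((minpoly M a).sum (fun i c => F (c : K) * a ^ i)) *
      (Polynomial.aeval a (Polynomial.derivative (minpoly M a)))⁻¹ := by
    field_simp
    linear_combination -h1
  rw [h5]
  exact L.mul_mem (L.neg_mem h4) (L.inv_mem (h3 _))

theorem alg_up {d : ℕ} {t : Fin d → L} (ht : IsTranscendenceBasis ℂ t) {a : K} (ha : a ∈ L) :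
    IsAlgebraic (IntermediateField.adjoin ℂ (Set.range fun j => (t j : K))) a := by
  have h1 := ht.isAlgebraic_field.isAlgebraic (⟨a, ha⟩ : L)
  have h2 : ∀ c ∈ IntermediateField.adjoin ℂ (Set.range t),
      (c : K) ∈ IntermediateField.adjoin ℂ (Set.range fun j => (t j : K)) := by
    intro c hc
    have h3 : (IntermediateField.adjoin ℂ (Set.range t)).map L.val =
        IntermediateField.adjoin ℂ (L.val '' Set.range t) := IntermediateField.adjoin_map ℂ _ L.val
    have h4 : L.val '' Set.range t = Set.range fun j => (t j : K) := by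
      rw [← Set.range_comp]
      rfl
    rw [h4] at h3
    rw [← h3]
    exact ⟨c, hc, rfl⟩
  let ρ : IntermediateField.adjoin ℂ (Set.range t) →+*
      IntermediateField.adjoin ℂ (Set.range fun j => (t j : K)) :=
    { toFun := fun c => ⟨((c : L) : K), h2 c c.2⟩
      map_one' := rfl
      map_mul' := fun _ _ => rfl
      map_zero' := rfl
      map_add' := fun _ _ => rfl }
  exact h1.ringHom_of_comp_eq ρ (algebraMap L K) ρ.injective rfl

/-- adapted frames -/
theorem exists_frame [Algebra.EssFiniteType ℂ K] {d : ℕ} (hK : Algebra.trdeg ℂ K = (d + 1 : ℕ))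
    {t : Fin d → L} (ht : IsTranscendenceBasis ℂ t) {x : K} (hx : Transcendental L x) :
    ∃ E : Fin (d + 1) → Derivation ℂ K K, Frame L E ∧ E (Fin.last d) x = 1 ∧
      ∃ y : Fin (d + 1) → K, IsTranscendenceBasis ℂ y ∧
        ∀ i j, E i (y j) = if i = j then 1 else 0 := by
  classical
  have : IsFF L K := isFF_of hK ht
  have h1 : IsTranscendenceBasis ℂ (Sum.elim (fun _ : Unit => x) (algebraMap L K ∘ t)) :=
    ht.sumElim_comp (IsFF.basis hx)
  let ε : Fin (d + 1) ≃ Unit ⊕ Fin d :=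
    (finSuccEquivLast.trans (Equiv.optionEquivSumPUnit _)).trans (Equiv.sumComm _ _)
  have hε1 : ε (Fin.last d) = Sum.inl () := by simp [ε]
  have hε2 : ∀ i : Fin d, ε i.castSucc = Sum.inr i := fun i => by simp [ε]
  obtain ⟨y, hy⟩ : ∃ y, y = Sum.elim (fun _ : Unit => x) (algebraMap L K ∘ t) ∘ ε := ⟨_, rfl⟩
  have hyb : IsTranscendenceBasis ℂ y := by
    rw [hy]
    exact h1.comp_equiv ε
  have hy1 : y (Fin.last d) = x := by rw [hy, Function.comp_apply, hε1]; rfl
  have hy2 : ∀ i : Fin d, y i.castSucc = (t i : K) := fun i => by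
    rw [hy, Function.comp_apply, hε2]; rfl
  obtain ⟨E, hE⟩ := exists_dual hyb
  have hE' : ∀ i j, E i (y j) = if i = j then 1 else 0 := by
    intro i j
    have := congrFun (congrFun hE i) j
    rwa [Matrix.of_apply, Matrix.one_apply] at this
  refine ⟨E, ⟨fun i a ha => ?_, fun a ha => ?_, fun h0 => ?_⟩, ?_, y, hyb, hE'⟩
  · refine pres_alg (M := IntermediateField.adjoin ℂ (Set.range fun j => (t j : K)))
      (IntermediateField.adjoin_le_iff.2 ?_) (fun c hc => ?_) ha (alg_up ht ha)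
    · rintro _ ⟨j, rfl⟩
      exact (t j).2
    · refine (pres_adj (S := Set.range fun j => (t j : K)) ?_ ?_ hc).2
      · rintro _ ⟨j, rfl⟩
        exact (t j).2
      · rintro _ ⟨j, rfl⟩
        have h2 := hE' i.castSucc j.castSucc
        rw [hy2] at h2
        change E i.castSucc (t j : K) ∈ L
        rw [h2]
        split_ifs
        · exact L.one_mem
        · exact L.zero_mem
  · refine kills_alg (M := IntermediateField.adjoin ℂ (Set.range fun j => (t j : K))) ?_
      (alg_up ht ha)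
    have h2 : IntermediateField.adjoin ℂ (Set.range fun j => (t j : K)) ≤
        consts (E (Fin.last d)) := by
      rw [IntermediateField.adjoin_le_iff]
      rintro _ ⟨j, rfl⟩
      have h3 := hE' (Fin.last d) j.castSucc
      rw [hy2, if_neg (Fin.castSucc_lt_last j).ne'] at h3
      exact h3
    exact fun c hc => h2 hc
  · have h2 := hE' (Fin.last d) (Fin.last d)
    rw [h0, if_pos rfl] at h2
    simp at h2
  · have h2 := hE' (Fin.last d) (Fin.last d)
    rwa [hy1, if_pos rfl] at h2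

/-- too many independent functions -/
theorem exists_trans {d : ℕ} (hK : Algebra.trdeg ℂ K = (d + 1 : ℕ)) {D : Derivation ℂ K K}
    (hD : ∀ a ∈ L, D a = 0) (hD0 : D ≠ 0) {s : Fin (d + 1) → K} (hs : AlgebraicIndependent ℂ s) :
    ∃ j, Transcendental L (s j) := by
  by_contra hcon
  push Not at hcon
  have hcon' : ∀ j, IsAlgebraic L (s j) := fun j => by
    have := hcon j
    simpa [Transcendental] using this
  apply hD0
  refine der_ext s (hs.isTranscendenceBasis_of_trdeg_le_of_finite ?_) fun j => ?_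
  · rw [hK, Cardinal.mk_fin]
  · rw [kills_alg (M := L) hD (hcon' j)]
    rfl

end

section

variable {K : Type} [Field K] [Algebra ℂ K] {r m d : ℕ} {g : Fin r → K} {h : Fin m → K}

/-- **General fibres of varieties of general type.** -/
theorem core (hInt : SInt) [Algebra.EssFiniteType ℂ K]
    (hd : Algebra.trdeg ℂ (Lg g) = d) (hGT : GeneralType ℂ K (d + 1)) :
    ∀ᶠ σ in Spz.fil g, IntermediateField.adjoin ℂ (Set.range fun i => σ.f (h i)) = ⊤ →
      (∃ i, ∀ c : ℂ, σ.f (h i) ≠ algebraMap ℂ σ.E c) → GeneralType ℂ σ.E 1 := by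
  classical
  obtain ⟨hK, N, hN, ω, hω, hreg, D0, hD0, hind⟩ := hGT
  obtain ⟨t, ht⟩ := basis_of_trdeg hd
  have hFF : IsFF (Lg g) K := isFF_of hK ht
  obtain ⟨x, hx⟩ := IsFF.exists_transcendental (k := Lg g) (K := K)
  obtain ⟨E, hE, hEx, y, hy, hEy⟩ := exists_frame hK ht hx
  obtain ⟨U, hU0, hxU, hU⟩ := hInt K d hK (Lg g) t ht E hE x hx hEx
  -- the coefficients
  obtain ⟨δ, hδ⟩ : ∃ δ, δ = (Matrix.of fun i j => D0 i (y j)).det ^ N := ⟨_, rfl⟩
  have hωE : ∀ j, ω j D0 = δ * ω j E := fun j => by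
    rw [hδ]
    exact pluri_coord hy hEy (hω j) D0
  have hδ0 : δ ≠ 0 := by
    intro h0
    apply hD0
    rw [hωE, h0, zero_mul]
  have hE0 : ω 0 E ≠ 0 := by
    intro h0
    apply hD0
    rw [hωE, h0, mul_zero]
  obtain ⟨j, hj⟩ := exists_trans hK hE.last hE.ne hind
  obtain ⟨s, hs⟩ : ∃ s, s = ω j.succ E / ω 0 E := ⟨_, rfl⟩
  have hs' : ω j.succ D0 / ω 0 D0 = s := by
    rw [hs, hωE, hωE]
    field_simp
  change Transcendental (Lg g) (ω j.succ D0 / ω 0 D0) at hj
  rw [hs'] at hj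
  -- the conditions on the specialisation
  have e1 : ∀ᶠ σ in Spz.fil g, ∀ i ∈ (Finset.univ : Finset (Fin m)),
      ∃ Q : ℂ[X][X], Pool.Agent.W603.LV.E2 (σ.f x) (σ.f (h i)) Q = 0 ∧
        ∀ c : ℂ, Q.map (evalRingHom c) ≠ 0 := by
    rw [Filter.eventually_all_finset]
    exact fun i _ => ev_rel hx (h i)
  have e2 := ev_rel hj x
  have e3 : ∀ k : Fin (d + 1 + 1), ∀ᶠ σ in Spz.fil g,
      ∀ (P : Place ℂ σ.E) (D' : Derivation ℂ σ.E σ.E), DerReg P D' →
      P.Reg (σ.f (ω k E) * D' (σ.f x) ^ N) := fun k =>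
    ev_reg hx hE.last hEx hU0 (hU N (ω k) (hω k) fun P hP => hreg P hP k)
  filter_upwards [e1, e2, e3 0, e3 j.succ, Spz.ev_mem (ω 0 E), Spz.ev_mem (ω 0 E)⁻¹,
    Spz.ev_mem (ω j.succ E), Spz.ev_mem s] with σ f1 f2 f3 f4 f5 f6 f7 f8 hσ hnc
  -- `x` becomes transcendental
  have hx1 : ∀ c : ℂ, σ.f x ≠ algebraMap ℂ σ.E c := by
    intro c hc
    obtain ⟨i, hi⟩ := hnc
    obtain ⟨Q, hQ, hQ'⟩ := f1 i (Finset.mem_univ i)
    obtain ⟨c', hc'⟩ := const_of_rel hQ hQ' hc
    exact hi c' hc'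
  have hx2 : Transcendental ℂ (σ.f x) := fun h0 => by
    obtain ⟨c, hc⟩ := alg_const h0
    exact hx1 c hc
  have hs2 : Transcendental ℂ (σ.f s) := fun h0 => by
    obtain ⟨c, hc⟩ := alg_const h0
    obtain ⟨Q, hQ, hQ'⟩ := f2
    obtain ⟨c', hc'⟩ := const_of_rel hQ hQ' hc
    exact hx1 c' hc'
  -- the target is a function field of one variable
  have hess : Algebra.EssFiniteType ℂ σ.E := by
    rw [← IntermediateField.fg_top_iff]
    rw [← hσ]
    exact ⟨Finset.univ.image fun i => σ.f (h i), by rw [Finset.coe_image, Finset.coe_univ,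
      Set.image_univ]⟩
  have halg : Algebra.IsAlgebraic (IntermediateField.adjoin ℂ {σ.f x}) σ.E := by
    have h1 : IntermediateField.adjoin ℂ (Set.range fun i => σ.f (h i)) ≤ acl ℂ {σ.f x} := by
      rw [IntermediateField.adjoin_le_iff]
      rintro _ ⟨i, rfl⟩
      obtain ⟨Q, hQ, hQ'⟩ := f1 i (Finset.mem_univ i)
      exact mem_acl.2 (alg_of_rel hQ hQ' hx2)
    rw [hσ] at h1
    exact ⟨fun a => mem_acl.1 (h1 (x := a) trivial)⟩
  have htrd : Algebra.trdeg ℂ σ.E = 1 := by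
    have h1 : AlgebraicIndependent ℂ (fun _ : Unit => σ.f x) := by
      rw [algebraicIndependent_unique_type_iff]
      exact hx2
    have h2 : IsTranscendenceBasis ℂ (fun _ : Unit => σ.f x) := by
      refine isTranscendenceBasis_iff_algebraicIndependent_isAlgebraic.2 ⟨h1, ?_⟩
      rw [Set.range_const, ← IntermediateField.isAlgebraic_adjoin_iff_top]
      exact halg
    have h3 := h2.cardinalMk_eq_trdeg
    rw [Cardinal.mk_fintype, Fintype.card_unit, Nat.cast_one] at h3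
    exact h3.symm
  have hFFE : IsFF ℂ σ.E := ⟨hess, htrd⟩
  -- the forms
  have hfs : σ.f s = σ.f (ω j.succ E) / σ.f (ω 0 E) := by
    have h1 := σ.f_inv hE0 f5 f6
    rw [hs, div_eq_mul_inv, σ.f_mul f7 f6, h1.2, div_eq_mul_inv]
  have hf0 : σ.f (ω 0 E) ≠ 0 := (σ.f_inv hE0 f5 f6).1
  obtain ⟨D1, hD1⟩ : ∃ D1 : Derivation ℂ σ.E σ.E, D1 (σ.f x) ≠ 0 :=
    ⟨Pool.Agent.W603.LV.der ℂ σ.E,
      Pool.Agent.W603.LV.der_ne_zero Pool.Agent.W603.LV.der_ne hx2⟩
  let a : Fin 2 → σ.E := ![σ.f (ω 0 E), σ.f (ω j.succ E)]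
  refine ⟨by rw [htrd]; simp, N, hN, fun i Δ => a i * Δ 0 (σ.f x) ^ N, fun i A Δ => ?_,
    fun P _ i Δ hΔ => ?_, fun _ => D1, ?_, ?_⟩
  · change a i * (∑ k, A 0 k • Δ k) (σ.f x) ^ N = A.det ^ N * (a i * Δ 0 (σ.f x) ^ N)
    rw [Matrix.det_fin_one, Fin.sum_univ_one, Derivation.smul_apply, smul_eq_mul]
    ring
  · fin_cases i
    · exact f3 P (Δ 0) (hΔ 0)
    · exact f4 P (Δ 0) (hΔ 0)
  · exact mul_ne_zero hf0 (pow_ne_zero _ hD1)
  · have h1 : (fun i : Fin 1 => a i.succ * D1 (σ.f x) ^ N / (a 0 * D1 (σ.f x) ^ N)) =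
        fun _ => σ.f s := by
      funext i
      have h2 : i = 0 := Subsingleton.elim _ _
      rw [h2, hfs]
      change σ.f (ω j.succ E) * D1 (σ.f x) ^ N / (σ.f (ω 0 E) * D1 (σ.f x) ^ N) = _
      have h3 : D1 (σ.f x) ^ N ≠ 0 := pow_ne_zero _ hD1
      field_simp
    change AlgebraicIndependent ℂ
      (fun i : Fin 1 => a i.succ * D1 (σ.f x) ^ N / (a 0 * D1 (σ.f x) ^ N))
    rw [h1, algebraicIndependent_unique_type_iff]
    exact hs2

end

end Pool.Agent.V8H90.FG
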