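import Pool.Agent.W603.LV.Der

/-!
Specialisations of function fields for which some functions become constants.
-/

set_option autoImplicit false
set_option linter.unusedSectionVars false

namespace Pool.Agent.V8H90.FG

open Polynomial Filter
open Pool.Agent.W603.LV (E2 E2_apply E2_monomial dX chain)

/-- A homomorphism from a part `O` of the field `K` to a field `E`, for which the functions `g j`
become constants. -/
structure Spz {K : Type} [Field K] [Algebra ℂ K] {r : ℕ} (g : Fin r → K) where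
  /-- the target -/
  E : Type
  /-- a field -/
  [fld : Field E]
  /-- over the complex numbers -/
  [alg : Algebra ℂ E]
  /-- the functions which are defined -/
  O : Subalgebra ℂ K
  /-- the homomorphism -/
  φ : O →ₐ[ℂ] E
  mem : ∀ j, g j ∈ O
  const : ∀ j, ∃ c : ℂ, φ ⟨g j, mem j⟩ = algebraMap ℂ E c

attribute [instance] Spz.fld Spz.alg

namespace Spz

variable {K : Type} [Field K] [Algebra ℂ K] {r : ℕ} {g : Fin r → K}

open Classical in
/-- the homomorphism as a function on `K` -/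
noncomputable def f (σ : Spz g) (a : K) : σ.E := if h : a ∈ σ.O then σ.φ ⟨a, h⟩ else 0

theorem f_eq (σ : Spz g) {a : K} (h : a ∈ σ.O) : σ.f a = σ.φ ⟨a, h⟩ := dif_pos h

theorem f_add (σ : Spz g) {a b : K} (ha : a ∈ σ.O) (hb : b ∈ σ.O) :
    σ.f (a + b) = σ.f a + σ.f b := by
  rw [σ.f_eq ha, σ.f_eq hb, σ.f_eq (σ.O.add_mem ha hb), ← map_add]
  rfl

theorem f_mul (σ : Spz g) {a b : K} (ha : a ∈ σ.O) (hb : b ∈ σ.O) :
    σ.f (a * b) = σ.f a * σ.f b := by
  rw [σ.f_eq ha, σ.f_eq hb, σ.f_eq (σ.O.mul_mem ha hb), ← map_mul]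
  rfl

theorem f_const (σ : Spz g) (c : ℂ) : σ.f (algebraMap ℂ K c) = algebraMap ℂ σ.E c := by
  rw [σ.f_eq (σ.O.algebraMap_mem c)]
  exact σ.φ.commutes c

theorem f_one (σ : Spz g) : σ.f 1 = 1 := by
  have := σ.f_const 1
  rwa [map_one, map_one] at this

theorem f_zero (σ : Spz g) : σ.f 0 = 0 := by
  have := σ.f_const 0
  rwa [map_zero, map_zero] at this

theorem f_neg (σ : Spz g) {a : K} (ha : a ∈ σ.O) : σ.f (-a) = -σ.f a := by
  have h1 := σ.f_add ha (σ.O.neg_mem ha)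
  rw [add_neg_cancel, σ.f_zero] at h1
  linear_combination -h1

theorem f_pow (σ : Spz g) {a : K} (ha : a ∈ σ.O) (n : ℕ) : σ.f (a ^ n) = σ.f a ^ n := by
  induction n with
  | zero => rw [pow_zero, pow_zero, f_one]
  | succ n ih => rw [pow_succ, pow_succ, σ.f_mul (σ.O.pow_mem ha n) ha, ih]

theorem f_inv (σ : Spz g) {a : K} (ha0 : a ≠ 0) (ha : a ∈ σ.O) (hb : a⁻¹ ∈ σ.O) :
    σ.f a ≠ 0 ∧ σ.f a⁻¹ = (σ.f a)⁻¹ := by
  have h1 := σ.f_mul ha hb
  rw [mul_inv_cancel₀ ha0, σ.f_one] at h1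
  have h2 : σ.f a ≠ 0 := by
    intro h0
    rw [h0, zero_mul] at h1
    exact one_ne_zero h1
  exact ⟨h2, eq_inv_of_mul_eq_one_right h1.symm⟩

theorem f_sum (σ : Spz g) {ι : Type*} (s : Finset ι) {a : ι → K} (ha : ∀ i ∈ s, a i ∈ σ.O) :
    σ.f (∑ i ∈ s, a i) = ∑ i ∈ s, σ.f (a i) := by
  classical
  induction s using Finset.induction_on with
  | empty => rw [Finset.sum_empty, Finset.sum_empty, f_zero]
  | insert i s hi ih =>
    rw [Finset.sum_insert hi, Finset.sum_insert hi, σ.f_add (ha i (Finset.mem_insert_self i s))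
      (σ.O.sum_mem fun j hj => ha j (Finset.mem_insert_of_mem hj)),
      ih fun j hj => ha j (Finset.mem_insert_of_mem hj)]

/-- the specialisations which are defined on large finite sets -/
def fil (g : Fin r → K) : Filter (Spz g) := ⨅ a : K, 𝓟 {σ | a ∈ σ.O}

theorem ev_mem (a : K) : ∀ᶠ σ in fil g, a ∈ σ.O :=
  mem_iInf_of_mem a (mem_principal_self _)

theorem ev_finset {p : Spz g → Prop} (h : ∀ᶠ σ in fil g, p σ) :
    ∃ S : Finset K, ∀ σ : Spz g, (∀ a ∈ S, a ∈ σ.O) → p σ := by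
  have h1 := (hasBasis_iInf_principal_finite fun a : K => {σ : Spz g | a ∈ σ.O}).mem_iff.1 h
  obtain ⟨t, ht, h2⟩ := h1
  refine ⟨ht.toFinset, fun σ hσ => h2 ?_⟩
  simp only [Set.mem_iInter, Set.mem_ofPred_eq]
  exact fun a ha => hσ a (ht.mem_toFinset.2 ha)

/-- the element becomes a constant -/
def Cst (σ : Spz g) (a : K) : Prop := a ∈ σ.O ∧ ∃ c : ℂ, σ.f a = algebraMap ℂ σ.E c

theorem Cst.add {σ : Spz g} {a b : K} (ha : σ.Cst a) (hb : σ.Cst b) : σ.Cst (a + b) := by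
  obtain ⟨ha, c, hc⟩ := ha
  obtain ⟨hb, d, hd⟩ := hb
  exact ⟨σ.O.add_mem ha hb, c + d, by rw [σ.f_add ha hb, hc, hd, map_add]⟩

theorem Cst.mul {σ : Spz g} {a b : K} (ha : σ.Cst a) (hb : σ.Cst b) : σ.Cst (a * b) := by
  obtain ⟨ha, c, hc⟩ := ha
  obtain ⟨hb, d, hd⟩ := hb
  exact ⟨σ.O.mul_mem ha hb, c * d, by rw [σ.f_mul ha hb, hc, hd, map_mul]⟩

/-- the elements of the field generated by the `g j` become constants -/
theorem ev_cst {a : K} (ha : a ∈ IntermediateField.adjoin ℂ (Set.range g)) :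
    ∀ᶠ σ in fil g, σ.Cst a := by
  induction ha using IntermediateField.adjoin_induction with
  | mem x hx =>
    obtain ⟨j, rfl⟩ := hx
    refine Eventually.of_forall fun σ => ⟨σ.mem j, ?_⟩
    obtain ⟨c, hc⟩ := σ.const j
    exact ⟨c, by rw [σ.f_eq (σ.mem j), hc]⟩
  | algebraMap x =>
    exact Eventually.of_forall fun σ => ⟨σ.O.algebraMap_mem x, x, σ.f_const x⟩
  | add x y hx hy ihx ihy =>
    filter_upwards [ihx, ihy] with σ h1 h2 using h1.add h2
  | inv x hx ihx =>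
    by_cases h0 : x = 0
    · rw [h0, inv_zero, ← h0]
      exact ihx
    filter_upwards [ihx, ev_mem x⁻¹] with σ h1 h2
    obtain ⟨h1, c, hc⟩ := h1
    obtain ⟨h3, h4⟩ := σ.f_inv h0 h1 h2
    exact ⟨h2, c⁻¹, by rw [h4, hc, map_inv₀]⟩
  | mul x y hx hy ihx ihy =>
    filter_upwards [ihx, ihy] with σ h1 h2 using h1.mul h2

open Classical in
/-- the constant -/
noncomputable def cst (σ : Spz g) (a : K) : ℂ := if h : σ.Cst a then h.2.choose else 0

theorem f_cst {σ : Spz g} {a : K} (h : σ.Cst a) : σ.f a = algebraMap ℂ σ.E (σ.cst a) := by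
  rw [cst, dif_pos h]
  exact h.2.choose_spec

theorem cst_zero (σ : Spz g) : σ.cst 0 = 0 := by
  have h : σ.Cst (0 : K) := ⟨σ.O.zero_mem, 0, by rw [σ.f_zero, map_zero]⟩
  have h1 := f_cst h
  rw [σ.f_zero] at h1
  exact (map_eq_zero (algebraMap ℂ σ.E)).1 h1.symm

/-! polynomials in one variable -/

/-- the coefficients of `q` become those of `q'` -/
def Sp1 (σ : Spz g) (q : K[X]) (q' : ℂ[X]) : Prop :=
  ∀ j, q.coeff j ∈ σ.O ∧ σ.f (q.coeff j) = algebraMap ℂ σ.E (q'.coeff j)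

theorem Sp1.add {σ : Spz g} {p q : K[X]} {p' q' : ℂ[X]} (hp : σ.Sp1 p p') (hq : σ.Sp1 q q') :
    σ.Sp1 (p + q) (p' + q') := fun j => by
  rw [coeff_add, coeff_add, map_add, σ.f_add (hp j).1 (hq j).1, (hp j).2, (hq j).2]
  exact ⟨σ.O.add_mem (hp j).1 (hq j).1, rfl⟩

theorem Sp1.mul {σ : Spz g} {p q : K[X]} {p' q' : ℂ[X]} (hp : σ.Sp1 p p') (hq : σ.Sp1 q q') :
    σ.Sp1 (p * q) (p' * q') := fun j => by
  rw [coeff_mul, coeff_mul, map_sum, σ.f_sum]
  · refine ⟨σ.O.sum_mem fun i _ => σ.O.mul_mem (hp _).1 (hq _).1, Finset.sum_congr rfl fun i _ => ?_⟩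
    rw [σ.f_mul (hp _).1 (hq _).1, (hp _).2, (hq _).2, map_mul]
  · exact fun i _ => σ.O.mul_mem (hp _).1 (hq _).1

theorem Sp1.zero (σ : Spz g) : σ.Sp1 0 0 := fun j => by
  rw [coeff_zero, coeff_zero, map_zero, σ.f_zero]
  exact ⟨σ.O.zero_mem, rfl⟩

theorem Sp1.sum {σ : Spz g} {ι : Type*} (s : Finset ι) {p : ι → K[X]} {p' : ι → ℂ[X]}
    (h : ∀ i ∈ s, σ.Sp1 (p i) (p' i)) : σ.Sp1 (∑ i ∈ s, p i) (∑ i ∈ s, p' i) := by
  classical
  induction s using Finset.induction_on with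
  | empty => exact Sp1.zero σ
  | insert i s hi ih =>
    rw [Finset.sum_insert hi, Finset.sum_insert hi]
    exact (h i (Finset.mem_insert_self i s)).add (ih fun j hj => h j (Finset.mem_insert_of_mem hj))

theorem Sp1.unique {σ : Spz g} {p : K[X]} {p' q' : ℂ[X]} (hp : σ.Sp1 p p') (hq : σ.Sp1 p q') :
    p' = q' := by
  ext j
  exact (algebraMap ℂ σ.E).injective ((hp j).2.symm.trans (hq j).2)

theorem Sp1.one (σ : Spz g) : σ.Sp1 1 1 := fun j => by
  rw [coeff_one, coeff_one]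
  split_ifs
  · exact ⟨σ.O.one_mem, by rw [σ.f_one, map_one]⟩
  · exact ⟨σ.O.zero_mem, by rw [σ.f_zero, map_zero]⟩

/-- the specialised polynomial -/
noncomputable def sp1 (σ : Spz g) (q : K[X]) : ℂ[X] :=
  ∑ j ∈ q.support, monomial j (σ.cst (q.coeff j))

theorem coeff_sp1 (σ : Spz g) (q : K[X]) (j : ℕ) : (σ.sp1 q).coeff j = σ.cst (q.coeff j) := by
  rw [sp1, finsetSum_coeff]
  by_cases hj : j ∈ q.support
  · rw [Finset.sum_eq_single j]
    · rw [coeff_monomial, if_pos rfl]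
    · intro i _ hi
      rw [coeff_monomial, if_neg hi]
    · exact fun h => absurd hj h
  · rw [Finset.sum_eq_zero, notMem_support_iff.1 hj, σ.cst_zero]
    intro i hi
    rw [coeff_monomial, if_neg]
    rintro rfl
    exact hj hi

theorem ev_sp1 {q : K[X]} (hq : ∀ j, q.coeff j ∈ IntermediateField.adjoin ℂ (Set.range g)) :
    ∀ᶠ σ in fil g, σ.Sp1 q (σ.sp1 q) := by
  have h1 : ∀ᶠ σ in fil g, ∀ j ∈ q.support, σ.Cst (q.coeff j) := by
    rw [Filter.eventually_all_finset]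
    exact fun j _ => ev_cst (hq j)
  filter_upwards [h1] with σ hσ j
  by_cases hj : j ∈ q.support
  · rw [coeff_sp1]
    exact ⟨(hσ j hj).1, f_cst (hσ j hj)⟩
  · rw [coeff_sp1, notMem_support_iff.1 hj, σ.cst_zero, σ.f_zero, map_zero]
    exact ⟨σ.O.zero_mem, rfl⟩

theorem Sp1.natDegree {σ : Spz g} {p : K[X]} {p' : ℂ[X]} (h : σ.Sp1 p p') :
    p'.natDegree ≤ p.natDegree := by
  rw [natDegree_le_iff_coeff_eq_zero]
  intro j hj
  have h1 := (h j).2
  rw [coeff_eq_zero_of_natDegree_lt hj, σ.f_zero] at h1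
  exact (map_eq_zero (algebraMap ℂ σ.E)).1 h1.symm

theorem Sp1.aeval {σ : Spz g} {p : K[X]} {p' : ℂ[X]} (h : σ.Sp1 p p') {x : K} (hx : x ∈ σ.O) :
    p.eval x ∈ σ.O ∧ σ.f (p.eval x) = Polynomial.aeval (σ.f x) p' := by
  rw [eval_eq_sum_range, aeval_eq_sum_range' (n := p.natDegree + 1)
    (Nat.lt_succ_of_le h.natDegree), σ.f_sum]
  · refine ⟨σ.O.sum_mem fun i _ => σ.O.mul_mem (h i).1 (σ.O.pow_mem hx i),
      Finset.sum_congr rfl fun i _ => ?_⟩
    rw [σ.f_mul (h i).1 (σ.O.pow_mem hx i), (h i).2, σ.f_pow hx, Algebra.smul_def]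
  · exact fun i _ => σ.O.mul_mem (h i).1 (σ.O.pow_mem hx i)

/-! polynomials in two variables -/

/-- the coefficients of `Q` become those of `Q'` -/
def Sp2 (σ : Spz g) (Q : K[X][X]) (Q' : ℂ[X][X]) : Prop :=
  ∀ i, σ.Sp1 (Q.coeff i) (Q'.coeff i)

/-- the specialised polynomial -/
noncomputable def sp2 (σ : Spz g) (Q : K[X][X]) : ℂ[X][X] :=
  ∑ i ∈ Q.support, monomial i (σ.sp1 (Q.coeff i))

theorem sp1_zero (σ : Spz g) : σ.sp1 0 = 0 := by
  rw [sp1, support_zero, Finset.sum_empty]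

theorem coeff_sp2 (σ : Spz g) (Q : K[X][X]) (i : ℕ) : (σ.sp2 Q).coeff i = σ.sp1 (Q.coeff i) := by
  rw [sp2, finsetSum_coeff]
  by_cases hj : i ∈ Q.support
  · rw [Finset.sum_eq_single i]
    · rw [coeff_monomial, if_pos rfl]
    · intro j _ hi
      rw [coeff_monomial, if_neg hi]
    · exact fun h => absurd hj h
  · rw [Finset.sum_eq_zero, notMem_support_iff.1 hj, σ.sp1_zero]
    intro j hi
    rw [coeff_monomial, if_neg]
    rintro rfl
    exact hj hi

theorem ev_sp2 {Q : K[X][X]}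
    (hQ : ∀ i j, (Q.coeff i).coeff j ∈ IntermediateField.adjoin ℂ (Set.range g)) :
    ∀ᶠ σ in fil g, σ.Sp2 Q (σ.sp2 Q) := by
  have h1 : ∀ᶠ σ in fil g, ∀ i ∈ Q.support, σ.Sp1 (Q.coeff i) (σ.sp1 (Q.coeff i)) := by
    rw [Filter.eventually_all_finset]
    exact fun i _ => ev_sp1 (hQ i)
  filter_upwards [h1] with σ hσ i
  by_cases hj : i ∈ Q.support
  · rw [coeff_sp2]
    exact hσ i hj
  · rw [coeff_sp2, notMem_support_iff.1 hj, σ.sp1_zero]
    exact Sp1.zero σ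

theorem Sp2.natDegree {σ : Spz g} {p : K[X][X]} {p' : ℂ[X][X]} (h : σ.Sp2 p p') :
    p'.natDegree ≤ p.natDegree := by
  rw [natDegree_le_iff_coeff_eq_zero]
  intro i hi
  have h1 := h i
  rw [coeff_eq_zero_of_natDegree_lt hi] at h1
  exact h1.unique (Sp1.zero σ)

/-- values of polynomials in two variables -/
theorem Sp2.val {σ : Spz g} {Q : K[X][X]} {Q' : ℂ[X][X]} (h : σ.Sp2 Q Q') {x y : K}
    (hx : x ∈ σ.O) (hy : y ∈ σ.O) :
    E2 (k := K) x y Q ∈ σ.O ∧ σ.f (E2 (k := K) x y Q) = E2 (k := ℂ) (σ.f x) (σ.f y) Q' := by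
  rw [E2_apply, E2_apply, eval₂_eq_sum_range, eval₂_eq_sum_range' _ (n := Q.natDegree + 1)
    (Nat.lt_succ_of_le h.natDegree)]
  simp only [AlgHom.coe_toRingHom]
  have e : ∀ i, Polynomial.aeval x (Q.coeff i) = (Q.coeff i).eval x := fun i => by
    rw [Polynomial.coe_aeval_eq_eval]
  simp only [e]
  rw [σ.f_sum]
  · refine ⟨σ.O.sum_mem fun i _ => σ.O.mul_mem ((h i).aeval hx).1 (σ.O.pow_mem hy i),
      Finset.sum_congr rfl fun i _ => ?_⟩
    rw [σ.f_mul ((h i).aeval hx).1 (σ.O.pow_mem hy i), ((h i).aeval hx).2, σ.f_pow hy]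
  · exact fun i _ => σ.O.mul_mem ((h i).aeval hx).1 (σ.O.pow_mem hy i)

theorem coeff_dX {k : Type} [Field k] (G : k[X][X]) (i : ℕ) :
    (dX G).coeff i = derivative (G.coeff i) := by
  rw [dX, finsetSum_coeff]
  by_cases hj : i ∈ G.support
  · rw [Finset.sum_eq_single i]
    · rw [coeff_monomial, if_pos rfl]
    · intro j _ hi
      rw [coeff_monomial, if_neg hi]
    · exact fun h => absurd hj h
  · rw [Finset.sum_eq_zero, notMem_support_iff.1 hj, derivative_zero]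
    intro j hi
    rw [coeff_monomial, if_neg]
    rintro rfl
    exact hj hi

theorem Sp1.natMul {σ : Spz g} {p : K} {p' : ℂ} (n : ℕ) (h : p ∈ σ.O ∧ σ.f p = algebraMap ℂ σ.E p') :
    p * (n + 1) ∈ σ.O ∧ σ.f (p * (n + 1)) = algebraMap ℂ σ.E (p' * (n + 1)) := by
  have h1 : ((n : K) + 1) = algebraMap ℂ K (n + 1) := by simp
  have h2 : ((n : K) + 1) ∈ σ.O := by
    rw [h1]
    exact σ.O.algebraMap_mem _
  refine ⟨σ.O.mul_mem h.1 h2, ?_⟩
  rw [σ.f_mul h.1 h2, h.2, map_mul]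
  congr 1
  rw [h1, σ.f_const]

theorem Sp1.derivative {σ : Spz g} {p : K[X]} {p' : ℂ[X]} (h : σ.Sp1 p p') :
    σ.Sp1 (Polynomial.derivative p) (Polynomial.derivative p') := fun j => by
  rw [coeff_derivative, coeff_derivative]
  exact Sp1.natMul j (h (j + 1))

theorem Sp2.dX {σ : Spz g} {Q : K[X][X]} {Q' : ℂ[X][X]} (h : σ.Sp2 Q Q') :
    σ.Sp2 (Pool.Agent.W603.LV.dX Q) (Pool.Agent.W603.LV.dX Q') := fun i => by
  rw [coeff_dX, coeff_dX]
  exact (h i).derivative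

theorem Sp2.derivative {σ : Spz g} {Q : K[X][X]} {Q' : ℂ[X][X]} (h : σ.Sp2 Q Q') :
    σ.Sp2 (Polynomial.derivative Q) (Polynomial.derivative Q') := fun i j => by
  rw [coeff_derivative, coeff_derivative]
  have e1 : ∀ (k : Type) [Field k] (p : k[X]), (p * ((i : k[X]) + 1)).coeff j =
      p.coeff j * ((i : k) + 1) := by
    intro k _ p
    have : ((i : k[X]) + 1) = Polynomial.C ((i : k) + 1) := by simp
    rw [this, coeff_mul_C]
  rw [e1 K, e1 ℂ]
  exact Sp1.natMul i (h (i + 1) j)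

end Spz

end Pool.Agent.V8H90.FG
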