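import Pool.Agent.V8H90.TP.Pts
import Pool.Agent.V8H90.FG.Spz

/-!
Specialisations of function fields given by points.
-/

set_option autoImplicit false
set_option linter.unusedSectionVars false

namespace Pool.Agent.V8H90.FG

open MvPolynomial Pool.Agent.W601.SM Pool.Agent.V8H90.LG Pool.Agent.V8H90.TP

variable {N n : ℕ}

/-- **Bihomogenisation.** -/
theorem exists_bihom (A : BiPoly N n) (i0 : Fin (N + 1)) (j0 : Fin (n + 1)) :
    ∃ (P : BiPoly N n) (c d : ℕ), BiHom P ∧ ∀ (K : Type) [Field K] [Algebra ℂ K]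
      (z : Fin (N + 1) → K) (b : Fin (n + 1) → K), z i0 ≠ 0 → b j0 ≠ 0 →
      evK z b P = z i0 ^ c * b j0 ^ d *
        evK (fun i => z i / z i0) (fun j => b j / b j0) A := by
  obtain ⟨P, c, d, hP, hP'⟩ := exists_homog (r := 0) (rename Sum.inl A : Tri N n 0) i0 j0
  let θ : Ix N n 0 → Fin (N + 1) ⊕ Fin (n + 1) := Sum.elim id fun i => i.elim0
  have h1 : ∀ (K : Type) [Field K] [Algebra ℂ K] (z : Fin (N + 1) → K) (b : Fin (n + 1) → K),
      evK z b (rename θ P) = evT z b (fun i : Fin 0 => i.elim0) P := by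
    intro K _ _ z b
    unfold evK evT
    rw [aeval_rename]
    congr 2
    funext i
    rcases i with i | i
    · rfl
    · exact i.elim0
  refine ⟨rename θ P, c, d, ?_, fun K _ _ z b hz hb => ?_⟩
  · obtain ⟨c', d', h2⟩ := hP.smul (K := ℂ)
    refine ⟨c', d', fun s t u v => ?_⟩
    have h3 := h2 s t u v fun i => i.elim0
    rw [← h1, ← h1] at h3
    exact h3
  · rw [h1, hP' K z b _ hz hb, evT_inl]

/-- clearing denominators -/
theorem exists_clear (H : BiPoly N n) (p : MvPolynomial (Option (Fin (N + 1) ⊕ Fin (n + 1))) ℂ) :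
    ∃ (e : ℕ) (A : BiPoly N n), ∀ (F : Type) [Field F] [Algebra ℂ F]
      (ζ : Fin (N + 1) ⊕ Fin (n + 1) → F), aeval ζ H ≠ 0 →
      aeval (fun o : Option _ => o.elim (aeval ζ H)⁻¹ ζ) p * aeval ζ H ^ e = aeval ζ A := by
  induction p using MvPolynomial.induction_on with
  | C a =>
    refine ⟨0, C a, fun F _ _ ζ _ => ?_⟩
    rw [aeval_C, aeval_C, pow_zero, mul_one]
  | add p q hp hq =>
    obtain ⟨e1, A1, h1⟩ := hp
    obtain ⟨e2, A2, h2⟩ := hq
    refine ⟨e1 + e2, A1 * H ^ e2 + A2 * H ^ e1, fun F _ _ ζ hζ => ?_⟩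
    rw [map_add, map_add, map_mul, map_mul, map_pow, map_pow, ← h1 F ζ hζ, ← h2 F ζ hζ, pow_add]
    ring
  | mul_X p i hp =>
    obtain ⟨e1, A1, h1⟩ := hp
    rcases i with _ | i
    · refine ⟨e1 + 1, A1, fun F _ _ ζ hζ => ?_⟩
      rw [map_mul, aeval_X, ← h1 F ζ hζ, pow_succ]
      simp only [Option.elim_none]
      field_simp
    · refine ⟨e1, A1 * X i, fun F _ _ ζ hζ => ?_⟩
      rw [map_mul, map_mul, aeval_X, aeval_X, ← h1 F ζ hζ]
      simp only [Option.elim_some]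
      ring

section

variable {K : Type} [Field K] [Algebra ℂ K]

theorem evK_eq (z : Fin (N + 1) → K) (b : Fin (n + 1) → K) (A : BiPoly N n) :
    evK z b A = aeval (Sum.elim z b) A := rfl

/-- **Specialisations.** -/
theorem exists_spec {z : Fin (N + 1) → K} {b : Fin (n + 1) → K} {i0 : Fin (N + 1)}
    {j0 : Fin (n + 1)} (hz : z i0 ≠ 0) (hb : b j0 ≠ 0)
    (hgen : IntermediateField.adjoin ℂ (Set.range (Sum.elim (fun i => z i / z i0)
      fun j => b j / b j0)) = ⊤) (S : Finset K) :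
    ∃ R : BiPoly N n, BiHom R ∧ evK z b R ≠ 0 ∧ ∀ (E : Type) [Field E] [Algebra ℂ E]
      (z' : Fin (N + 1) → E) (b' : Fin (n + 1) → E),
      (∀ P : BiPoly N n, BiHom P → evK z b P = 0 → evK z' b' P = 0) → evK z' b' R ≠ 0 →
      z' i0 ≠ 0 ∧ b' j0 ≠ 0 ∧ ∃ (O : Subalgebra ℂ K) (φ : O →ₐ[ℂ] E), (∀ a ∈ S, a ∈ O) ∧
        (∀ i, ∃ h : z i / z i0 ∈ O, φ ⟨z i / z i0, h⟩ = z' i / z' i0) ∧
        ∀ j, ∃ h : b j / b j0 ∈ O, φ ⟨b j / b j0, h⟩ = b' j / b' j0 := by
  classical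
  obtain ⟨ξ, hξ⟩ : ∃ ξ : Fin (N + 1) ⊕ Fin (n + 1) → K, ξ = Sum.elim (fun i => z i / z i0)
    fun j => b j / b j0 := ⟨_, rfl⟩
  have hfrac : ∀ a : K, ∃ A B : BiPoly N n, aeval ξ B ≠ 0 ∧ a * aeval ξ B = aeval ξ A := by
    intro a
    have h1 : a ∈ IntermediateField.adjoin ℂ (Set.range ξ) := by
      rw [hξ, hgen]
      trivial
    obtain ⟨A, B, hAB⟩ := (IntermediateField.mem_adjoin_range_iff ℂ ξ a).1 h1
    by_cases hB : aeval ξ B = 0
    · refine ⟨0, 1, by rw [map_one]; exact one_ne_zero, ?_⟩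
      rw [hAB, hB, div_zero, zero_mul, map_zero]
    · exact ⟨A, B, hB, by rw [hAB, div_mul_cancel₀ _ hB]⟩
  choose A B hB hAB using hfrac
  obtain ⟨H, hH⟩ : ∃ H : BiPoly N n, H = ∏ a ∈ S, B a := ⟨_, rfl⟩
  have hH0 : aeval ξ H ≠ 0 := by
    rw [hH, map_prod]
    exact Finset.prod_ne_zero_iff.2 fun a _ => hB a
  obtain ⟨RH, c, d, hRH, hRH'⟩ := exists_bihom H i0 j0
  -- the denominators
  have hX1 : BiHom (X (Sum.inl i0) : BiPoly N n) := ⟨1, 0, fun s t u v => by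
    unfold ev2
    rw [eval_X, eval_X]
    simp⟩
  have hX2 : BiHom (X (Sum.inr j0) : BiPoly N n) := ⟨0, 1, fun s t u v => by
    unfold ev2
    rw [eval_X, eval_X]
    simp⟩
  have hmul : ∀ P Q : BiPoly N n, BiHom P → BiHom Q → BiHom (P * Q) := by
    rintro P Q ⟨a1, b1, h1⟩ ⟨a2, b2, h2⟩
    refine ⟨a1 + a2, b1 + b2, fun s t u v => ?_⟩
    have e : ∀ u v, ev2 u v (P * Q) = ev2 u v P * ev2 u v Q := fun u v => by
      unfold ev2
      rw [map_mul]
    rw [e, e, h1, h2]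
    ring
  refine ⟨RH * (X (Sum.inl i0) * X (Sum.inr j0)), hmul _ _ hRH (hmul _ _ hX1 hX2), ?_, ?_⟩
  · rw [evK_mul, evK_mul, hRH' K z b hz hb]
    refine mul_ne_zero (mul_ne_zero (mul_ne_zero (pow_ne_zero _ hz) (pow_ne_zero _ hb)) ?_) ?_
    · rw [evK_eq, ← hξ]
      exact hH0
    · unfold evK
      rw [aeval_X, aeval_X]
      exact mul_ne_zero hz hb
  intro E _ _ z' b' hmem hR
  rw [evK_mul, evK_mul] at hR
  have hz' : z' i0 ≠ 0 := by
    intro h0
    apply hR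
    have : evK z' b' (X (Sum.inl i0) : BiPoly N n) = 0 := by
      unfold evK
      rw [aeval_X]
      exact h0
    rw [this, zero_mul, mul_zero]
  have hb' : b' j0 ≠ 0 := by
    intro h0
    apply hR
    have : evK z' b' (X (Sum.inr j0) : BiPoly N n) = 0 := by
      unfold evK
      rw [aeval_X]
      exact h0
    rw [this, mul_zero, mul_zero]
  refine ⟨hz', hb', ?_⟩
  obtain ⟨ξ', hξ'⟩ : ∃ ξ' : Fin (N + 1) ⊕ Fin (n + 1) → E, ξ' = Sum.elim (fun i => z' i / z' i0)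
    fun j => b' j / b' j0 := ⟨_, rfl⟩
  have hrel : ∀ Q : BiPoly N n, aeval ξ Q = 0 → aeval ξ' Q = 0 := by
    intro Q hQ
    obtain ⟨P, c1, d1, hP, hP'⟩ := exists_bihom Q i0 j0
    have h1 : evK z b P = 0 := by
      rw [hP' K z b hz hb, evK_eq, ← hξ, hQ, mul_zero]
    have h2 := hmem P hP h1
    rw [hP' E z' b' hz' hb', evK_eq, ← hξ'] at h2
    rcases mul_eq_zero.1 h2 with h3 | h3
    · exact absurd h3 (mul_ne_zero (pow_ne_zero _ hz') (pow_ne_zero _ hb'))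
    · exact h3
  have hH0' : aeval ξ' H ≠ 0 := by
    intro h0
    apply hR
    rw [hRH' E z' b' hz' hb', evK_eq, ← hξ', h0, mul_zero, zero_mul]
  let ψ : MvPolynomial (Option (Fin (N + 1) ⊕ Fin (n + 1))) ℂ →ₐ[ℂ] K :=
    aeval (fun o : Option _ => o.elim (aeval ξ H)⁻¹ ξ)
  let ψ' : MvPolynomial (Option (Fin (N + 1) ⊕ Fin (n + 1))) ℂ →ₐ[ℂ] E :=
    aeval (fun o : Option _ => o.elim (aeval ξ' H)⁻¹ ξ')
  have hker : ∀ p, ψ p = 0 → ψ' p = 0 := by
    intro p hp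
    obtain ⟨e, Q, hQ⟩ := exists_clear H p
    have h1 := hQ K ξ hH0
    have h2 : aeval ξ Q = 0 := by
      rw [← h1]
      change ψ p * _ = 0
      rw [hp, zero_mul]
    have h3 := hQ E ξ' hH0'
    rw [hrel Q h2] at h3
    rcases mul_eq_zero.1 h3 with h4 | h4
    · exact h4
    · exact absurd h4 (pow_ne_zero _ hH0')
  let φ : ψ.range →ₐ[ℂ] E :=
    (Ideal.Quotient.liftₐ (RingHom.ker ψ) ψ' fun p hp => hker p hp).comp
      (Ideal.quotientKerEquivRange ψ).symm.toAlgHom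
  have hφ : ∀ p (h : ψ p ∈ ψ.range), φ ⟨ψ p, h⟩ = ψ' p := by
    intro p h
    have h1 : (Ideal.quotientKerEquivRange ψ).symm ⟨ψ p, h⟩ =
        Ideal.Quotient.mk (RingHom.ker ψ) p := by
      rw [AlgEquiv.symm_apply_eq]
      rfl
    change Ideal.Quotient.liftₐ (RingHom.ker ψ) ψ' (fun p hp => hker p hp)
      ((Ideal.quotientKerEquivRange ψ).symm _) = _
    rw [h1]
    rfl
  refine ⟨ψ.range, φ, fun a ha => ?_, fun i => ?_, fun j => ?_⟩
  · refine ⟨rename some (A a * ∏ a' ∈ S.erase a, B a') * X none, ?_⟩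
    change ψ _ = a
    have h1 : ∀ Q : BiPoly N n, ψ (rename some Q) = aeval ξ Q := by
      intro Q
      change aeval _ (rename some Q) = _
      rw [aeval_rename]
      rfl
    have h2 : ψ (X none) = (aeval ξ H)⁻¹ := by
      change aeval _ (X none) = _
      rw [aeval_X]
      rfl
    rw [map_mul, h1, h2, map_mul, ← hAB a]
    have h3 : aeval ξ H = aeval ξ (B a) * aeval ξ (∏ a' ∈ S.erase a, B a') := by
      rw [← map_mul, Finset.mul_prod_erase S B ha, hH]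
    rw [mul_assoc a, ← h3, mul_assoc, mul_inv_cancel₀ hH0, mul_one]
  · have h1 : ψ (X (some (Sum.inl i))) = z i / z i0 := by
      change aeval _ (X _) = _
      rw [aeval_X, hξ]
      rfl
    have h2 : z i / z i0 ∈ ψ.range := ⟨_, h1⟩
    refine ⟨h2, ?_⟩
    have h3 := hφ (X (some (Sum.inl i))) (by rw [h1]; exact h2)
    have h4 : ψ' (X (some (Sum.inl i))) = z' i / z' i0 := by
      change aeval _ (X _) = _
      rw [aeval_X, hξ']
      rfl
    rw [h4] at h3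
    rw [← h3]
    congr 1
    exact Subtype.ext h1.symm
  · have h1 : ψ (X (some (Sum.inr j))) = b j / b j0 := by
      change aeval _ (X _) = _
      rw [aeval_X, hξ]
      rfl
    have h2 : b j / b j0 ∈ ψ.range := ⟨_, h1⟩
    refine ⟨h2, ?_⟩
    have h3 := hφ (X (some (Sum.inr j))) (by rw [h1]; exact h2)
    have h4 : ψ' (X (some (Sum.inr j))) = b' j / b' j0 := by
      change aeval _ (X _) = _
      rw [aeval_X, hξ']
      rfl
    rw [h4] at h3
    rw [← h3]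
    congr 1
    exact Subtype.ext h1.symm

end

end Pool.Agent.V8H90.FG
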