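import Pool.Agent.Q103.SF.Ent
import Pool.Agent.Q285.SFG.Gpc
import Pool.Agent.V8H90.FG.Pt
import Pool.Agent.V8H90.FG.Core

/-!
Entire curves in fibres of dimension one.
-/

set_option autoImplicit false
set_option linter.unusedSectionVars false

namespace Pool.Agent.V8H90.FG

open FF Filter IntermediateField
open Pool.Agent.W602.GT Pool.Agent.W603.BP Metric Topology
open Pool.Agent.Y221.AP
open Pool.Agent.Y221.PD
open Pool.Agent.W603.BP (sin_point)
open Pool.Agent.Y221.BD (EntireCurve)

section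

variable {M : ℕ} {K : Type} [Field K] [Algebra ℂ K] {x : Fin (M + 1) → K}

/-- a holomorphic map from the punctured disc as a point over the field of the functions which are
meromorphic near infinity, with the values of this point -/
theorem exists_mk' {f : ℂ → Fin (M + 1) → ℂ} (hf : EssentialDisc x f) :
    ∃ z : Fin (M + 1) → MK, (∀ G : MvPolynomial (Fin (M + 1)) ℂ, val z G = 0 ↔
      ∀ t ∈ ball (0 : ℂ) 1 \ {0}, MvPolynomial.eval (f t) G = 0) ∧
      (∃ j k, z k ≠ 0 ∧ ¬ MInf (z j / z k)) ∧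
      ∀ w ∈ Om, ∃ k, z k ≠ 0 ∧ f w⁻¹ k ≠ 0 ∧ ∀ i, Pool.Agent.Y221.AP.Reg (z i / z k) w ∧
        Fn (z i / z k) w = f w⁻¹ i / f w⁻¹ k := by
  classical
  have hfan : ∀ i, AnalyticOnNhd ℂ (fun w => f w i) (PB 1) := by
    intro i w hw
    exact (hf.hol i).analyticAt (disc_open.mem_nhds (mem_disc.mpr hw))
  have hinvPB : ∀ {z : ℂ}, z ∈ Om → z⁻¹ ∈ PB 1 := by
    intro z hz
    exact inv_mem_PB one_pos (by rwa [inv_one])
  have hPBinv : ∀ {w : ℂ}, w ∈ PB 1 → w⁻¹ ∈ Om := by
    intro w hw
    have := inv_mem_Ext hw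
    rwa [inv_one] at this
  have hOm0 : ∀ {z : ℂ}, z ∈ Om → z ≠ 0 := by
    intro z hz h0
    have h1 : (1 : ℝ) < ‖z‖ := hz
    rw [h0, norm_zero] at h1
    linarith
  obtain ⟨f', hf'⟩ : ∃ f' : Fin (M + 1) → ℂ → ℂ, ∀ i z, f' i z = f z⁻¹ i := ⟨_, fun _ _ => rfl⟩
  have hf'an : ∀ i, ∀ z ∈ Om, AnalyticAt ℂ (f' i) z := by
    intro i z hz
    have h1 : f' i = (fun w => f w i) ∘ fun z => z⁻¹ := by
      funext v
      exact hf' i v
    rw [h1]
    exact AnalyticAt.comp (hfan i _ (hinvPB hz)) (analyticAt_inv (hOm0 hz))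
  have hmer : ∀ i, MeromorphicOn (f' i) Om := fun i z hz => (hf'an i z hz).meromorphicAt
  obtain ⟨z, hzdef⟩ : ∃ z : Fin (M + 1) → MK, z = fun i => cl (f' i) (hmer i) := ⟨_, rfl⟩
  have hcont : ∀ G : MvPolynomial (Fin (M + 1)) ℂ, ∀ t ∈ Om,
      ContinuousAt (fun t => MvPolynomial.eval (fun i => f' i t) G) t := fun G t ht =>
    (MvPolynomial.continuous_eval G).continuousAt.comp
      (continuousAt_pi.2 fun i => (hf'an i t ht).continuousAt)
  have hvz : ∀ G, val z G = 0 ↔ ∀ t ∈ Om, MvPolynomial.eval (fun i => f' i t) G = 0 := by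
    intro G
    rw [hzdef, val_cl hmer G, cl_eq_zero]
    constructor
    · intro h t ht
      exact eq_of_cod (g := fun _ => 0) h ht (hcont G t ht) continuousAt_const
    · intro h
      filter_upwards [cod_Om] with t ht
      exact h t ht
  have hevf : ∀ (G : MvPolynomial (Fin (M + 1)) ℂ) (t : ℂ),
      MvPolynomial.eval (fun i => f' i t) G = MvPolynomial.eval (f t⁻¹) G := by
    intro G t
    have h1 : (fun i => f' i t) = f t⁻¹ := by
      funext i
      rw [hf']
    rw [h1]
  refine ⟨z, fun G => ?_, ?_, fun w hw => ?_⟩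
  · rw [hvz]
    constructor
    · intro h t ht
      have h1 := h t⁻¹ (hPBinv (mem_disc.1 ht))
      rw [hevf, inv_inv] at h1
      exact h1
    · intro h t ht
      rw [hevf]
      exact h _ (mem_disc.2 (hinvPB ht))
  · by_contra hcon
    push Not at hcon
    apply hf.ess
    refine extends_of f hfan (fun w hw => hf.ne w (mem_disc.2 hw)) fun j k hj hk => ?_
    have hzk : z k ≠ 0 := by
      intro h0
      apply hk
      rw [hzdef] at h0
      have h1 := cl_eq_zero.1 h0
      filter_upwards [PB_mem one_pos] with w hw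
      have h2 := eq_of_cod (g := fun _ => 0) h1 (hPBinv hw) (hf'an k _ (hPBinv hw)).continuousAt
        continuousAt_const
      rw [hf', inv_inv] at h2
      exact h2
    have hjk : MInf (z j / z k) := hcon j k hzk
    refine ⟨fun w => Fn (z j / z k) w⁻¹, hjk, ?_⟩
    have h1 : cl (f' j) (hmer j) = cl (fun t => Fn (z j / z k) t * f' k t)
        ((Fn_mero _).mul (hmer k)) := by
      have h2 : cl (f' j) (hmer j) = z j := by rw [hzdef]
      have h3 : cl (f' k) (hmer k) = z k := by rw [hzdef]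
      have h4 : cl (fun t => Fn (z j / z k) t * f' k t) ((Fn_mero _).mul (hmer k)) =
          cl (Fn (z j / z k)) (Fn_mero _) * cl (f' k) (hmer k) := rfl
      rw [h4, h2, h3, cl_Fn, div_mul_cancel₀ _ hzk]
    rw [cl_eq] at h1
    filter_upwards [hjk.reg, PB_mem one_pos] with w hw1 hw2
    have hwO := hPBinv hw2
    have h2 := eq_of_cod (f := f' j) (g := fun t => Fn (z j / z k) t * f' k t) h1 hwO
      (hf'an j _ hwO).continuousAt (hw1.continuousAt.mul (hf'an k _ hwO).continuousAt)
    rw [hf', hf', inv_inv] at h2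
    exact h2
  · have hne := hf.ne w⁻¹ (mem_disc.2 (hinvPB hw))
    obtain ⟨k, hk⟩ : ∃ k, f w⁻¹ k ≠ 0 := by
      by_contra hcon
      push Not at hcon
      exact hne (funext hcon)
    have hk' : f' k w ≠ 0 := by rwa [hf']
    have hzk : z k ≠ 0 := by
      intro h0
      apply hk'
      rw [hzdef] at h0
      exact eq_of_cod (g := fun _ => 0) (cl_eq_zero.1 h0) hw (hf'an k w hw).continuousAt
        continuousAt_const
    refine ⟨k, hzk, hk, fun i => ?_⟩
    have h1 : cl (f' i) (hmer i) = cl (fun t => Fn (z i / z k) t * f' k t)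
        ((Fn_mero _).mul (hmer k)) := by
      have h2 : cl (f' i) (hmer i) = z i := by rw [hzdef]
      have h3 : cl (f' k) (hmer k) = z k := by rw [hzdef]
      have h4 : cl (fun t => Fn (z i / z k) t * f' k t) ((Fn_mero _).mul (hmer k)) =
          cl (Fn (z i / z k)) (Fn_mero _) * cl (f' k) (hmer k) := rfl
      rw [h4, h2, h3, cl_Fn, div_mul_cancel₀ _ hzk]
    rw [cl_eq] at h1
    have h2 : Fn (z i / z k) =ᶠ[𝓝[≠] w] fun t => f' i t / f' k t := by
      have h3 := cod_ev h1 hw
      have h4 : ∀ᶠ t in 𝓝[≠] w, f' k t ≠ 0 :=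
        ((hf'an k w hw).continuousAt.eventually_ne hk').filter_mono nhdsWithin_le_nhds
      filter_upwards [h3, h4] with t h5 h6
      rw [h5, mul_div_cancel_right₀ _ h6]
    have h3 : AnalyticAt ℂ (fun t => f' i t / f' k t) w := (hf'an i w hw).fun_div (hf'an k w hw) hk'
    refine ⟨reg_of_punct hw h2 h3, ?_⟩
    have h4 := (Fn_eq_of_punct hw h2 h3).self_of_nhds
    rw [h4]
    simp only [hf']

end

/-- an entire curve as a point over the field of the functions which are meromorphic near
infinity -/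
theorem curve_pt {N : ℕ} {u : ℂ → Fin (N + 1) → ℂ} (hu : ∀ j, Differentiable ℂ fun t => u t j)
    (hne : ∀ t, u t ≠ 0) (hnc : ∃ i j a b, u a i * u b j ≠ u a j * u b i) :
    ∃ z : Fin (N + 1) → MK, (∀ G : MvPolynomial (Fin (N + 1)) ℂ, MvPolynomial.aeval z G = 0 ↔
      ∀ t, MvPolynomial.eval (u t) G = 0) ∧
      (∃ j k, z k ≠ 0 ∧ ¬ MInf (z j / z k)) ∧
      ∀ w ∈ Om, ∃ k t, z k ≠ 0 ∧ u t k ≠ 0 ∧ ∀ i, Pool.Agent.Y221.AP.Reg (z i / z k) w ∧
        Fn (z i / z k) w = u t i / u t k := by
  let F := FractionRing (MvPolynomial (Fin (N + 1)) ℂ)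
  let x : Fin (N + 1) → F := fun i => algebraMap (MvPolynomial (Fin (N + 1)) ℂ) F
    (MvPolynomial.X i)
  have hE : EntireCurve x fun i t => u t i := by
    refine ⟨hu, fun t => ?_, fun G _ hG t => ?_, hnc⟩
    · by_contra hcon
      push Not at hcon
      exact hne t (funext hcon)
    · have h1 : val x G = algebraMap _ F G := by
        unfold Pool.Agent.W602.GT.val
        have : x = algebraMap (MvPolynomial (Fin (N + 1)) ℂ) F ∘ MvPolynomial.X := rfl
        rw [this, MvPolynomial.aeval_algebraMap_apply, MvPolynomial.aeval_X_left_apply]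
      rw [h1] at hG
      have h2 : G = 0 := (IsFractionRing.injective (MvPolynomial (Fin (N + 1)) ℂ) F)
        (by rw [hG, map_zero])
      rw [h2, map_zero]
  obtain ⟨z, h1, h2, h3⟩ := exists_mk' (Pool.Agent.Q103.SF.disc_of_entire hE)
  refine ⟨z, fun G => ?_, h2, fun w hw => ?_⟩
  · rw [show MvPolynomial.aeval z G = val z G from rfl, h1]
    constructor
    · intro h t
      obtain ⟨w, hw, hws⟩ := sin_point t
      have h4 := h w hw
      simp only [hws] at h4
      exact h4
    · intro h t _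
      exact h _
  · obtain ⟨k, h4, h5, h6⟩ := h3 w hw
    exact ⟨k, _, h4, h5, h6⟩

/-- the field generated by the ratios of the coordinates, and the point -/
theorem ratios {Ω : Type} [Field Ω] [Algebra ℂ Ω] {M : ℕ} {z : Fin (M + 1) → Ω} {k : Fin (M + 1)}
    (hk : z k ≠ 0) : ∃ v : Fin (M + 1) → coords ℂ z, (∀ i, (v i : Ω) = z i / z k) ∧
      IntermediateField.adjoin ℂ (Set.range v) = ⊤ := by
  let E := coords ℂ z
  have hmem : ∀ i, z i / z k ∈ E := fun i => subset_adjoin _ _ ⟨i, k, hk, rfl⟩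
  let v : Fin (M + 1) → E := fun i => ⟨z i / z k, hmem i⟩
  refine ⟨v, fun i => rfl, ?_⟩
  have h1 : (IntermediateField.adjoin ℂ (Set.range v)).map (IntermediateField.val E) =
      (⊤ : IntermediateField ℂ E).map (IntermediateField.val E) := by
    have h2 : (⊤ : IntermediateField ℂ E).map (IntermediateField.val E) = E := by
      rw [← AlgHom.fieldRange_eq_map, IntermediateField.fieldRange_val]
    rw [h2, IntermediateField.adjoin_map]
    apply le_antisymm
    · rw [IntermediateField.adjoin_le_iff]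
      rintro _ ⟨_, ⟨i, rfl⟩, rfl⟩
      exact hmem i
    · change coords ℂ z ≤ _
      unfold coords
      rw [IntermediateField.adjoin_le_iff]
      rintro _ ⟨i, j, hj, rfl⟩
      have h3 : ∀ i, z i / z k ∈ IntermediateField.adjoin ℂ
          ((IntermediateField.val E : E → Ω) '' Set.range v) := fun i =>
        subset_adjoin _ _ ⟨v i, ⟨i, rfl⟩, rfl⟩
      have h4 : z i / z j = (z i / z k) / (z j / z k) := by field_simp
      rw [h4]
      exact div_mem (h3 i) (h3 j)
  exact IntermediateField.map_injective _ h1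

end Pool.Agent.V8H90.FG
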