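import Pool.Agent.V8H90.FG.Ent
import Pool.Agent.V8H90.LG.Exc
import Pool.Agent.V8H61.FG.Fin
import Pool.Agent.V8H61.FG.Int

/-!
Entire curves in the fibres of varieties of general type which are fibred in curves.
-/

set_option autoImplicit false
set_option linter.unusedSectionVars false

namespace Pool.Agent.V8H90.FG

open FF Filter IntermediateField MvPolynomial
open Pool.Agent.W602.GT Pool.Agent.W603.BP Metric Topology
open Pool.Agent.W601.SM Pool.Agent.V8H90.LG
open Pool.Agent.Y221.AP (MK MDer Om MInf)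
open Pool.Agent.Y191 (RF)

section

variable {N n : ℕ}

/-- a bihomogeneous polynomial at a curve in a fibre, and at the corresponding point -/
theorem transfer {ζ : Fin (N + 1) → MK} {u : ℂ → Fin (N + 1) → ℂ}
    (hζ : ∀ G : MvPolynomial (Fin (N + 1)) ℂ, MvPolynomial.aeval ζ G = 0 ↔
      ∀ t, MvPolynomial.eval (u t) G = 0) {k : Fin (N + 1)} (hk : ζ k ≠ 0)
    {v : Fin (N + 1) → coords ℂ ζ} (hv : ∀ i, (v i : MK) = ζ i / ζ k) (w : Fin (n + 1) → ℂ)
    {P : BiPoly N n} (hP : BiHom P) :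
    evK v (fun j => algebraMap ℂ (coords ℂ ζ) (w j)) P = 0 ↔ ∀ t, ev2 (u t) w P = 0 := by
  obtain ⟨Pw, hPw⟩ : ∃ Pw : MvPolynomial (Fin (N + 1)) ℂ,
      Pw = aeval (Sum.elim X (fun j => C (w j))) P := ⟨_, rfl⟩
  have h1 : ∀ x : Fin (N + 1) → ℂ, eval x Pw = ev2 x w P := by
    intro x
    rw [hPw]
    have h2 := comp_aeval_apply (R := ℂ) (f := Sum.elim X (fun j => C (w j)))
      (aeval x : MvPolynomial (Fin (N + 1)) ℂ →ₐ[ℂ] ℂ) P
    rw [← coe_aeval_eq_eval]
    change (aeval x : MvPolynomial (Fin (N + 1)) ℂ →ₐ[ℂ] ℂ) _ = _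
    rw [h2]
    unfold ev2
    rw [← coe_aeval_eq_eval]
    change _ = (aeval (Sum.elim x w) : BiPoly N n →ₐ[ℂ] ℂ) P
    congr 2
    funext o
    rcases o with i | j
    · simp
    · simp
  have h2 : aeval ζ Pw = evK ζ (fun j => algebraMap ℂ MK (w j)) P := by
    rw [hPw]
    have h3 := comp_aeval_apply (R := ℂ) (f := Sum.elim X (fun j => C (w j)))
      (aeval ζ : MvPolynomial (Fin (N + 1)) ℂ →ₐ[ℂ] MK) P
    rw [h3]
    unfold evK
    congr 2
    funext o
    rcases o with i | j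
    · simp
    · simp
  have h3 : algebraMap (coords ℂ ζ) MK (evK v (fun j => algebraMap ℂ (coords ℂ ζ) (w j)) P) =
      evK (fun i => ζ i / ζ k) (fun j => algebraMap ℂ MK (w j)) P := by
    unfold evK
    have h4 := comp_aeval_apply (R := ℂ) (f := Sum.elim v (fun j => algebraMap ℂ (coords ℂ ζ) (w j)))
      (IsScalarTower.toAlgHom ℂ (coords ℂ ζ) MK) P
    change (IsScalarTower.toAlgHom ℂ (coords ℂ ζ) MK) _ = _
    rw [h4]
    congr 2
    funext o
    rcases o with i | j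
    · exact hv i
    · rfl
  obtain ⟨a, b, hab⟩ := Pool.Agent.V8H90.LG.BiHom.evK (K := MK) hP
  have h4 : evK ζ (fun j => algebraMap ℂ MK (w j)) P = ζ k ^ a *
      evK (fun i => ζ i / ζ k) (fun j => algebraMap ℂ MK (w j)) P := by
    have h5 := hab (ζ k) 1 (fun i => ζ i / ζ k) (fun j => algebraMap ℂ MK (w j))
    rw [one_pow, mul_one, one_smul] at h5
    rw [← h5]
    congr 1
    funext i
    simp only [Pi.smul_apply, smul_eq_mul]
    field_simp
  rw [← (algebraMap (coords ℂ ζ) MK).injective.eq_iff, map_zero, h3]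
  have h5 : evK (fun i => ζ i / ζ k) (fun j => algebraMap ℂ MK (w j)) P = 0 ↔ aeval ζ Pw = 0 := by
    rw [h2, h4, mul_eq_zero, or_iff_right (pow_ne_zero _ hk)]
  rw [h5, hζ]
  simp only [h1]

variable {K : Type} [Field K] [Algebra ℂ K]

/-- **Entire curves in the fibres of varieties of general type which are fibred in curves.** -/
theorem fib_exc [Algebra.EssFiniteType ℂ K] {d : ℕ} {z : Fin (N + 1) → K} {b : Fin (n + 1) → K}
    (hz0 : z ≠ 0) (hb0 : b ≠ 0)
    (hgen : IntermediateField.adjoin ℂ ({f | ∃ i j, z j ≠ 0 ∧ f = z i / z j} ∪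
      {f | ∃ i j, b j ≠ 0 ∧ f = b i / b j}) = ⊤)
    (hd : Algebra.trdeg ℂ (RF ℂ b) = d) (hGT : GeneralType ℂ K (d + 1)) :
    ∃ R : BiPoly N n, BiHom R ∧ evK z b R ≠ 0 ∧ (∀ u v, ev2 u v R ≠ 0 → u ≠ 0 ∧ v ≠ 0) ∧
      ∀ (u : ℂ → Fin (N + 1) → ℂ) (v : ℂ → Fin (n + 1) → ℂ),
        (∀ j, Differentiable ℂ fun t => u t j) → (∀ t, u t ≠ 0) →
        (∀ t, InVar z b (u t) (v t)) → (∀ t t', ∃ c : ℂ, v t' = c • v t) →
        ∀ t1, ev2 (u t1) (v t1) R ≠ 0 → ∀ t, ∃ c : ℂ, u t = c • u t1 := by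
  classical
  obtain ⟨i0, hi0⟩ : ∃ i, z i ≠ 0 := by
    by_contra hcon
    push Not at hcon
    exact hz0 (funext hcon)
  obtain ⟨j0, hj0⟩ : ∃ j, b j ≠ 0 := by
    by_contra hcon
    push Not at hcon
    exact hb0 (funext hcon)
  have hgen' : IntermediateField.adjoin ℂ (Set.range (Sum.elim (fun i => z i / z i0)
      fun j => b j / b j0)) = ⊤ := by
    rw [← top_le_iff, ← hgen, IntermediateField.adjoin_le_iff]
    have h1 : ∀ i, z i / z i0 ∈ IntermediateField.adjoin ℂ (Set.range (Sum.elim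
        (fun i => z i / z i0) fun j => b j / b j0)) := fun i =>
      subset_adjoin _ _ ⟨Sum.inl i, rfl⟩
    have h2 : ∀ j, b j / b j0 ∈ IntermediateField.adjoin ℂ (Set.range (Sum.elim
        (fun i => z i / z i0) fun j => b j / b j0)) := fun j =>
      subset_adjoin _ _ ⟨Sum.inr j, rfl⟩
    rintro f (⟨i, j, hj, rfl⟩ | ⟨i, j, hj, rfl⟩)
    · have h3 : z i / z j = (z i / z i0) / (z j / z i0) := by field_simp
      rw [h3]
      exact div_mem (h1 i) (h1 j)
    · have h3 : b i / b j = (b i / b j0) / (b j / b j0) := by field_simp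
      rw [h3]
      exact div_mem (h2 i) (h2 j)
  have hd' : Algebra.trdeg ℂ (Lg fun j => b j / b j0) = d := by
    have h1 : RF ℂ b = Lg fun j => b j / b j0 := Pool.Agent.V8H90.LG.RF_eq hj0
    rw [← h1]
    exact hd
  obtain ⟨S, hS⟩ := Spz.ev_finset (core (g := fun j => b j / b j0) (h := fun i => z i / z i0)
    (Pool.Agent.V8H61.FG.sInt sLoc Pool.Agent.V8H61.FG.sFin) hd' hGT)
  obtain ⟨R, hR1, hR2, hR3⟩ := exists_spec hi0 hj0 hgen' S
  -- nonzero coordinates
  refine ⟨R * (X (Sum.inl i0) * X (Sum.inr j0)), ?_, ?_, ?_, ?_⟩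
  · obtain ⟨a, c, h⟩ := hR1
    refine ⟨a + 1, c + 1, fun s t u v => ?_⟩
    rw [ev2_mul, ev2_mul, h, ev2_mul, ev2_mul]
    have e1 : ∀ u v, ev2 u v (X (Sum.inl i0) : BiPoly N n) = u i0 := fun u v => by
      unfold ev2
      rw [eval_X]
      rfl
    have e2 : ∀ u v, ev2 u v (X (Sum.inr j0) : BiPoly N n) = v j0 := fun u v => by
      unfold ev2
      rw [eval_X]
      rfl
    rw [e1, e1, e2, e2]
    simp only [Pi.smul_apply, smul_eq_mul]
    ring
  · rw [evK_mul, evK_mul]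
    refine mul_ne_zero hR2 ?_
    unfold evK
    rw [aeval_X, aeval_X]
    exact mul_ne_zero hi0 hj0
  · intro u v h
    rw [ev2_mul, ev2_mul] at h
    have h1 := right_ne_zero_of_mul h
    have e1 : ev2 u v (X (Sum.inl i0) : BiPoly N n) = u i0 := by
      unfold ev2
      rw [eval_X]
      rfl
    have e2 : ev2 u v (X (Sum.inr j0) : BiPoly N n) = v j0 := by
      unfold ev2
      rw [eval_X]
      rfl
    rw [e1, e2] at h1
    exact ⟨fun h0 => left_ne_zero_of_mul h1 (congrFun h0 i0),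
      fun h0 => right_ne_zero_of_mul h1 (congrFun h0 j0)⟩
  intro u v hu hu0 hin hvc t1 ht1
  rw [ev2_mul] at ht1
  have ht2 := left_ne_zero_of_mul ht1
  by_contra hcon
  push Not at hcon
  obtain ⟨t2, ht3⟩ := hcon
  -- the curve is not constant
  have hnc : ∃ i j a b, u a i * u b j ≠ u a j * u b i := by
    obtain ⟨k1, hk1⟩ : ∃ k, u t1 k ≠ 0 := by
      by_contra hc
      push Not at hc
      exact hu0 t1 (funext hc)
    by_contra hc
    push Not at hc
    apply ht3 (u t2 k1 / u t1 k1)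
    funext i
    have h1 := hc i k1 t2 t1
    simp only [Pi.smul_apply, smul_eq_mul]
    field_simp
    linear_combination h1
  obtain ⟨ζ, hζ, ⟨j, k, hk, hjk⟩, -⟩ := curve_pt hu hu0 hnc
  obtain ⟨x, hx, hxgen⟩ := ratios hk
  have key : ∀ P : BiPoly N n, BiHom P →
      (evK x (fun j => algebraMap ℂ (coords ℂ ζ) (v t1 j)) P = 0 ↔ ∀ t, ev2 (u t) (v t1) P = 0) :=
    fun P hP => transfer hζ hk hx (v t1) hP
  obtain ⟨hx0, hb0', O, φ, hSO, hφ1, hφ2⟩ := hR3 (coords ℂ ζ) x
    (fun j => algebraMap ℂ (coords ℂ ζ) (v t1 j)) (fun P hP hP0 => by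
      rw [key P hP]
      intro t
      have h1 := hin t P hP hP0
      obtain ⟨c, hc⟩ := hvc t t1
      obtain ⟨a', b', hab⟩ := hP
      rw [hc, ev2_smul hab, h1, mul_zero]) (fun h0 => ht2 ((key R hR1).1 h0 t1))
  -- the specialisation
  let σ : Spz (fun j => b j / b j0) :=
    { E := coords ℂ ζ
      O := O
      φ := φ
      mem := fun j => (hφ2 j).choose
      const := fun j => ⟨v t1 j / v t1 j0, by
        obtain ⟨h1, h2⟩ := hφ2 j
        rw [h2, map_div₀]⟩ }
  have hσ := hS σ hSO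
  have hf : ∀ i, σ.f (z i / z i0) = x i / x i0 := by
    intro i
    obtain ⟨h1, h2⟩ := hφ1 i
    rw [σ.f_eq h1]
    exact h2
  have hζ0 : ζ i0 ≠ 0 := by
    intro h0
    apply hx0
    apply Subtype.ext
    rw [hx, h0, zero_div]
    rfl
  obtain ⟨y, hy, hygen⟩ := ratios hζ0
  have hxy : ∀ i, x i / x i0 = y i := by
    intro i
    apply Subtype.ext
    have h1 : ((x i / x i0 : coords ℂ ζ) : MK) = (x i : MK) / (x i0 : MK) := rfl
    rw [h1, hx, hx, hy]
    field_simp
  have hE : Algebra.EssFiniteType ℂ (coords ℂ ζ) := by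
    rw [← IntermediateField.fg_top_iff, ← hygen]
    exact IntermediateField.fg_adjoin_of_finite (Set.finite_range y)
  have hGT1 : GeneralType ℂ (coords ℂ ζ) 1 := by
    refine hσ ?_ ?_
    · have h1 : (fun i => σ.f (z i / z i0)) = y := by
        funext i
        rw [hf, hxy]
      rw [h1]
      exact hygen
    · by_contra hc
      push Not at hc
      apply hjk
      obtain ⟨c1, hc1⟩ := hc j
      obtain ⟨c2, hc2⟩ := hc k
      rw [hf] at hc1 hc2
      have hxk : x k = 1 := by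
        apply Subtype.ext
        rw [hx, div_self hk]
        rfl
      have h1 : x j = algebraMap ℂ (coords ℂ ζ) (c1 / c2) := by
        have h2 : x i0 = (algebraMap ℂ (coords ℂ ζ) c2)⁻¹ := by
          have h3 : (x i0)⁻¹ = algebraMap ℂ (coords ℂ ζ) c2 := by
            rw [← hc2, hxk, one_div]
          rw [← h3, inv_inv]
        have h4 : x j = algebraMap ℂ (coords ℂ ζ) c1 * x i0 := by
          rw [← hc1, div_mul_cancel₀ _ hx0]
        rw [h4, h2, map_div₀]
        rfl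
      have h2 : ζ j / ζ k = algebraMap ℂ MK (c1 / c2) := by
        rw [← hx j, h1]
        rfl
      rw [h2]
      exact Pool.Agent.Y221.AP.MI.algebraMap_mem _
  have h1 := Pool.Agent.Q285.SFG.t_gpc (coords ℂ ζ) hGT1 (x j)
  apply hjk
  rw [← hx j]
  exact h1

end

end Pool.Agent.V8H90.FG
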