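import Pool.Agent.Y742.SP.Stm

/-!
Varieties of general type which are fibred in curves: statements.
-/

set_option autoImplicit false

namespace Pool.Agent.V8H90.FG

open FF Pool.Agent.W602.GT Pool.Agent.Y742.SP

/-- the vector fields `E i`, `i < d`, map `L` to `L`, the last one is not zero, but zero on `L` -/
structure Frame {K : Type} [Field K] [Algebra ℂ K] (L : IntermediateField ℂ K) {d : ℕ}
    (E : Fin (d + 1) → Derivation ℂ K K) : Prop where
  pres : ∀ i : Fin d, ∀ a ∈ L, E i.castSucc a ∈ L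
  last : ∀ a ∈ L, E (Fin.last d) a = 0
  ne : E (Fin.last d) ≠ 0

/-- Leaf 1: regular pluricanonical forms on the places of the generic fibre. -/
def SLoc : Prop := ∀ (K : Type) [Field K] [Algebra ℂ K] [Algebra.EssFiniteType ℂ K] (d : ℕ),
    Algebra.trdeg ℂ K = (d + 1 : ℕ) → ∀ (L : IntermediateField ℂ K) (t : Fin d → L),
    IsTranscendenceBasis ℂ t → ∀ (N : ℕ) (ω : (Fin (d + 1) → Derivation ℂ K K) → K), IsPluri N ω →
    (∀ P : Place ℂ K, Divisorial (d + 1) P → RegAt P ω) →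
    ∀ E : Fin (d + 1) → Derivation ℂ K K, Frame L E →
    ∀ P : Place ℂ K, TrivOn P L → ∀ π : K, P.ord π = 1 → P.Reg (ω E / E (Fin.last d) π ^ N)

/-- Leaf 2: the vector field `d / dx` is regular at almost all places of the generic fibre. -/
def SFin : Prop := ∀ (K : Type) [Field K] [Algebra ℂ K] [Algebra.EssFiniteType ℂ K] (d : ℕ),
    Algebra.trdeg ℂ K = (d + 1 : ℕ) → ∀ (L : IntermediateField ℂ K) (t : Fin d → L),
    IsTranscendenceBasis ℂ t → ∀ x : K, Transcendental L x → ∀ D : Derivation ℂ K K,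
    (∀ a ∈ L, D a = 0) → D x = 1 →
    ∃ T : Finset (Place ℂ K), ∀ P, TrivOn P L → P ∉ T → P.Reg x ∧ DerReg P D

/-- the elements `e u` and `D (e u) * X`, for `u` in `U` -/
noncomputable def gens {K : Type} [Field K] [Algebra ℂ K] (D : Derivation ℂ K K) (U : Finset K)
    (e : K → K) : Set (RatFunc K) :=
  {y | ∃ u ∈ U, y = RatFunc.C (e u)} ∪ {y | ∃ u ∈ U, y = RatFunc.C (D (e u)) * RatFunc.X}

/-- Leaf 3: integrality of the pluricanonical forms over the differentials of finitely many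
functions. -/
def SInt : Prop := ∀ (K : Type) [Field K] [Algebra ℂ K] [Algebra.EssFiniteType ℂ K] (d : ℕ),
    Algebra.trdeg ℂ K = (d + 1 : ℕ) → ∀ (L : IntermediateField ℂ K) (t : Fin d → L),
    IsTranscendenceBasis ℂ t → ∀ E : Fin (d + 1) → Derivation ℂ K K, Frame L E →
    ∀ x : K, Transcendental L x → E (Fin.last d) x = 1 →
    ∃ U : Finset K, (∀ u ∈ U, u ≠ 0) ∧ x ∈ U ∧
      ∀ (N : ℕ) (ω : (Fin (d + 1) → Derivation ℂ K K) → K), IsPluri N ω →
      (∀ P : Place ℂ K, Divisorial (d + 1) P → RegAt P ω) →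
      ∀ e : K → K, (∀ u ∈ U, e u = u ∨ e u = u⁻¹) →
      IsIntegral (Algebra.adjoin L (gens (E (Fin.last d)) U e)) (RatFunc.C (ω E) * RatFunc.X ^ N)

end Pool.Agent.V8H90.FG
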