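import Pool.Agent.V8H90.FG.Rel
import Pool.Agent.V8H90.FG.Stm

/-!
Regularity of specialised pluricanonical forms.
-/

set_option autoImplicit false
set_option linter.unusedSectionVars false

namespace Pool.Agent.V8H90.FG

open Polynomial Filter FF Pool.Agent.W602.GT

theorem int_of {E : Type} [Field E] [Algebra ℂ E] (S : Subalgebra ℂ E) {y : E} {n : ℕ} {b : ℕ → E}
    (hb : ∀ k < n, b k ∈ S) (h : ∑ k ∈ Finset.range n, b k * y ^ k + y ^ n = 0) :
    IsIntegral S y := by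
  classical
  let p : S[X] := ∑ k ∈ (Finset.range n).attach,
    C (⟨b k, hb k (Finset.mem_range.1 k.2)⟩ : S) * X ^ (k : ℕ)
  refine ⟨X ^ n + p, monic_X_pow_add ?_, ?_⟩
  · refine lt_of_le_of_lt (degree_sum_le _ _) ?_
    refine (Finset.sup_lt_iff (a := (n : WithBot ℕ)) (WithBot.bot_lt_coe n)).2 fun k _ => ?_
    refine lt_of_le_of_lt (degree_C_mul_X_pow_le _ _) ?_
    exact_mod_cast Finset.mem_range.1 k.2
  · rw [eval₂_add, eval₂_X_pow, eval₂_finsetSum, ← h, add_comm]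
    congr 1
    rw [← Finset.sum_attach (Finset.range n)]
    refine Finset.sum_congr rfl fun k _ => ?_
    rw [eval₂_mul, eval₂_C, eval₂_X_pow]
    rfl

section

variable {K : Type} [Field K] [Algebra ℂ K] {r : ℕ} {g : Fin r → K}

/-- the specialised generators -/
def gen' (D : Derivation ℂ K K) (U : Finset K) (e : K → K) (σ : Spz g) (τ : σ.E) : Set σ.E :=
  {y | ∃ u ∈ U, y = σ.f (e u)} ∪ {y | ∃ u ∈ U, y = σ.f (D (e u)) * τ}

/-- the inclusion of polynomials over `O` in the rational functions over `K` -/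
noncomputable def inc (σ : Spz g) : Polynomial σ.O →+* RatFunc K :=
  (algebraMap K[X] (RatFunc K)).comp (mapRingHom (σ.O.val : σ.O →+* K))

theorem inc_inj (σ : Spz g) : Function.Injective (inc σ) := by
  refine (RatFunc.algebraMap_injective K).comp ?_
  exact map_injective _ Subtype.val_injective

/-- the specialisation of polynomials over `O` -/
noncomputable def spe (σ : Spz g) (τ : σ.E) : Polynomial σ.O →+* σ.E :=
  eval₂RingHom (σ.φ : σ.O →+* σ.E) τ

theorem inc_C (σ : Spz g) (a : σ.O) : inc σ (C a) = RatFunc.C (a : K) := by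
  rw [inc, RingHom.comp_apply, coe_mapRingHom, map_C, RatFunc.algebraMap_C]
  rfl

theorem inc_X (σ : Spz g) : inc σ X = RatFunc.X := by
  rw [inc, RingHom.comp_apply, coe_mapRingHom, map_X, RatFunc.algebraMap_X]

theorem spe_C (σ : Spz g) (τ : σ.E) (a : σ.O) : spe σ τ (C a) = σ.f (a : K) := by
  rw [spe, coe_eval₂RingHom, eval₂_C, σ.f_eq a.2]
  rfl

theorem spe_X (σ : Spz g) (τ : σ.E) : spe σ τ X = τ := by
  rw [spe, coe_eval₂RingHom, eval₂_X]

theorem ev_lift (D : Derivation ℂ K K) (U : Finset K) (e : K → K) {c : RatFunc K}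
    (hc : c ∈ Algebra.adjoin (Lg g) (gens D U e)) :
    ∀ᶠ σ in Spz.fil g, ∃ p : Polynomial σ.O, inc σ p = c ∧
      ∀ τ, spe σ τ p ∈ Algebra.adjoin ℂ (gen' D U e σ τ) := by
  induction hc using Algebra.adjoin_induction with
  | mem y hy =>
    rcases hy with ⟨u, hu, rfl⟩ | ⟨u, hu, rfl⟩
    · filter_upwards [Spz.ev_mem (e u)] with σ h1
      refine ⟨C ⟨e u, h1⟩, inc_C σ _, fun τ => ?_⟩
      rw [spe_C]
      exact Algebra.subset_adjoin (Or.inl ⟨u, hu, rfl⟩)
    · filter_upwards [Spz.ev_mem (D (e u))] with σ h1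
      refine ⟨C ⟨D (e u), h1⟩ * X, by rw [map_mul, inc_C, inc_X], fun τ => ?_⟩
      rw [map_mul, spe_C, spe_X]
      exact Algebra.subset_adjoin (Or.inr ⟨u, hu, rfl⟩)
  | algebraMap l =>
    filter_upwards [Spz.ev_cst l.2] with σ h1
    refine ⟨C ⟨(l : K), h1.1⟩, ?_, fun τ => ?_⟩
    · rw [inc_C]
      rfl
    · rw [spe_C]
      obtain ⟨c, hc⟩ := h1.2
      rw [hc]
      exact Subalgebra.algebraMap_mem _ c
  | add x y hx hy ihx ihy =>
    filter_upwards [ihx, ihy] with σ ⟨p, hp, hp'⟩ ⟨q, hq, hq'⟩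
    exact ⟨p + q, by rw [map_add, hp, hq], fun τ => by
      rw [map_add]
      exact Subalgebra.add_mem _ (hp' τ) (hq' τ)⟩
  | mul x y hx hy ihx ihy =>
    filter_upwards [ihx, ihy] with σ ⟨p, hp, hp'⟩ ⟨q, hq, hq'⟩
    exact ⟨p * q, by rw [map_mul, hp, hq], fun τ => by
      rw [map_mul]
      exact Subalgebra.mul_mem _ (hp' τ) (hq' τ)⟩

/-- integrality is preserved -/
theorem ev_int (D : Derivation ℂ K K) (U : Finset K) (e : K → K) {w : K} {N : ℕ}
    (h : IsIntegral (Algebra.adjoin (Lg g) (gens D U e)) (RatFunc.C w * RatFunc.X ^ N)) :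
    ∀ᶠ σ in Spz.fil g, ∀ τ : σ.E,
      IsIntegral (Algebra.adjoin ℂ (gen' D U e σ τ)) (σ.f w * τ ^ N) := by
  classical
  obtain ⟨p, hp, hp0⟩ := h
  obtain ⟨n, hn⟩ : ∃ n, n = p.natDegree := ⟨_, rfl⟩
  have h1 : ∀ᶠ σ in Spz.fil g, ∀ k ∈ Finset.range n, ∃ q : Polynomial σ.O,
      inc σ q = (p.coeff k : RatFunc K) ∧ ∀ τ, spe σ τ q ∈ Algebra.adjoin ℂ (gen' D U e σ τ) := by
    rw [Filter.eventually_all_finset]
    exact fun k _ => ev_lift D U e (p.coeff k).2
  filter_upwards [h1, Spz.ev_mem w] with σ h2 hw τ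
  choose! q hq hq' using h2
  have h3 : ∑ k ∈ Finset.range n, inc σ (q k) * (inc σ (C ⟨w, hw⟩ * X ^ N)) ^ k +
      (inc σ (C ⟨w, hw⟩ * X ^ N)) ^ n = 0 := by
    rw [map_mul, map_pow, inc_C, inc_X, ← hp0, eval₂_eq_sum_range, ← hn, Finset.sum_range_succ]
    congr 1
    · refine Finset.sum_congr rfl fun k hk => ?_
      rw [hq k hk]
      rfl
    · have h4 : p.coeff n = 1 := by
        rw [hn]
        exact hp
      rw [h4, map_one, one_mul]
  have h4 : inc σ (∑ k ∈ Finset.range n, q k * (C ⟨w, hw⟩ * X ^ N) ^ k +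
      (C ⟨w, hw⟩ * X ^ N) ^ n) = 0 := by
    rw [← h3, map_add, map_sum, map_pow]
    congr 1
    refine Finset.sum_congr rfl fun k _ => ?_
    rw [map_mul, map_pow]
  have h5 := (map_eq_zero_iff (inc σ) (inc_inj σ)).1 h4
  have h6 := congrArg (spe σ τ) h5
  rw [map_zero, map_add, map_sum, map_pow, map_mul, map_pow, spe_C, spe_X] at h6
  refine int_of _ (b := fun k => spe σ τ (q k)) (n := n)
    (fun k hk => hq' k (Finset.mem_range.2 hk) τ) ?_
  rw [← h6]
  congr 1
  refine Finset.sum_congr rfl fun k _ => ?_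
  rw [map_mul, map_pow, map_mul, map_pow, spe_C, spe_X]

/-- **Regularity.** -/
theorem ev_reg [IsFF (Lg g) K] {x : K} (hx : Transcendental (Lg g) x) {D : Derivation ℂ K K}
    (hD : ∀ a ∈ Lg g, D a = 0) (hDx : D x = 1) {U : Finset K} (hU : ∀ u ∈ U, u ≠ 0) {w : K} {N : ℕ}
    (hint : ∀ e : K → K, (∀ u ∈ U, e u = u ∨ e u = u⁻¹) →
      IsIntegral (Algebra.adjoin (Lg g) (gens D U e)) (RatFunc.C w * RatFunc.X ^ N)) :
    ∀ᶠ σ in Spz.fil g, ∀ (P : Place ℂ σ.E) (D' : Derivation ℂ σ.E σ.E), DerReg P D' →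
      P.Reg (σ.f w * D' (σ.f x) ^ N) := by
  classical
  let e : Finset K → K → K := fun V u => if u ∈ V then u else u⁻¹
  have he : ∀ V u, e V u = u ∨ e V u = u⁻¹ := by
    intro V u
    by_cases h : u ∈ V
    · left; exact if_pos h
    · right; exact if_neg h
  have h1 : ∀ᶠ σ in Spz.fil g, ∀ V ∈ U.powerset, ∀ τ : σ.E,
      IsIntegral (Algebra.adjoin ℂ (gen' D U (e V) σ τ)) (σ.f w * τ ^ N) := by
    rw [Filter.eventually_all_finset]
    exact fun V _ => ev_int D U (e V) (hint _ fun u _ => he V u)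
  have h2 : ∀ᶠ σ in Spz.fil g, ∀ V ∈ U.powerset, ∀ u ∈ U,
      ∀ D' : Derivation ℂ σ.E σ.E, D' (σ.f (e V u)) = σ.f (D (e V u)) * D' (σ.f x) := by
    rw [Filter.eventually_all_finset]
    intro V _
    rw [Filter.eventually_all_finset]
    exact fun u _ => ev_chain hx hD hDx _
  have h3 : ∀ᶠ σ in Spz.fil g, ∀ u ∈ U, u ∈ σ.O ∧ u⁻¹ ∈ σ.O := by
    rw [Filter.eventually_all_finset]
    exact fun u _ => (Spz.ev_mem u).and (Spz.ev_mem u⁻¹)
  filter_upwards [h1, h2, h3] with σ h4 h5 h6 P D' hD'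
  obtain ⟨V, hV⟩ : ∃ V, V = U.filter fun u => P.Reg (σ.f u) := ⟨_, rfl⟩
  have hVU : V ∈ U.powerset := by
    rw [hV, Finset.mem_powerset]
    exact Finset.filter_subset _ _
  have hreg : ∀ u ∈ U, P.Reg (σ.f (e V u)) := by
    intro u hu
    by_cases h : P.Reg (σ.f u)
    · have h7 : u ∈ V := by rw [hV]; exact Finset.mem_filter.2 ⟨hu, h⟩
      have h8 : e V u = u := if_pos h7
      rw [h8]
      exact h
    · have h7 : u ∉ V := by
        rw [hV]
        exact fun h9 => h (Finset.mem_filter.1 h9).2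
      have h8 : e V u = u⁻¹ := if_neg h7
      obtain ⟨h9, h10⟩ := σ.f_inv (hU u hu) (h6 u hu).1 (h6 u hu).2
      rw [h8, h10]
      right
      rw [P.ord_inv]
      unfold Place.Reg at h
      push Not at h
      omega
  have hadj : ∀ a : Algebra.adjoin ℂ (gen' D U (e V) σ (D' (σ.f x))),
      P.Reg (algebraMap _ σ.E a) := by
    rintro ⟨a, ha⟩
    change P.Reg a
    induction ha using Algebra.adjoin_induction with
    | mem y hy =>
      rcases hy with ⟨u, hu, rfl⟩ | ⟨u, hu, rfl⟩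
      · exact hreg u hu
      · rw [← h5 V hVU u hu D']
        exact hD' _ (hreg u hu)
    | algebraMap l => exact P.reg_const l
    | add y z hy hz ihy ihz => exact P.reg_add ihy ihz
    | mul y z hy hz ihy ihz => exact P.reg_mul ihy ihz
  exact P.reg_of_isIntegral hadj (h4 V hVU (D' (σ.f x)))

end

end Pool.Agent.V8H90.FG
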