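import Pool.Agent.V8H90.FG.Mer
import Pool.Agent.Q103.SF.Conv

/-!
Entire curves in projective varieties with fibres of dimension at most one over projective space.
-/

set_option autoImplicit false
set_option linter.overlappingInstances false

namespace Pool.Agent.V8H90.FG

open FF MvPolynomial Filter Metric Set Topology Pool.Agent.W601.SM Pool.Agent.W601.PH
  Pool.Agent.V8H90.JT Pool.Agent.V8H90.AJ Pool.Agent.W602.GT Pool.Agent.V8H90.LG Pool.Agent.V8H90.HY
open Pool.Agent.Y221.AP (MK MDer Om MInf)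
open Pool.Agent.W603.LV (canDeg)
open Pool.Agent.Q103.SF (IsElliptic)

variable {N n : ℕ}

/-- All closed subvarieties of `X` which are contained in a fibre of the projection to projective
`n`-space have dimension at most one: the fibres have dimension at most one. -/
def FibresLeOne (X : BiSet N n) : Prop :=
  ∀ (K : Type) [Field K] [Algebra ℂ K] (w : ℕ) (z : Fin (N + 1) → K) (b : Fin (n + 1) → K),
    SubVariety X K w z b → (∀ i j, b j ≠ 0 → ∃ c : ℂ, b i / b j = algebraMap ℂ K c) → w ≤ 1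

/-- `X` contains no images of elliptic curves: every morphism from an elliptic curve, with the
function field `E`, to `X` is constant. -/
def EllipticRigid (X : BiSet N n) : Prop :=
  ∀ (E : Type) [Field E] [Algebra ℂ E], IsElliptic E →
    ∀ (z : Fin (N + 1) → E) (b : Fin (n + 1) → E), z ≠ 0 → b ≠ 0 → (∀ P ∈ X.I, evK z b P = 0) →
      (∀ i j, z j ≠ 0 → ∃ c : ℂ, z i / z j = algebraMap ℂ E c) ∧
      ∀ i j, b j ≠ 0 → ∃ c : ℂ, b i / b j = algebraMap ℂ E c

/-- `L` is the function field, and `(z, b)` the generic point, of the Zariski closure of the entire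
curve with the homogeneous coordinates `u`, `v`. -/
def IsClosure (X : BiSet N n) (u : ℂ → Fin (N + 1) → ℂ) (v : ℂ → Fin (n + 1) → ℂ) (L : Type)
    [Field L] [Algebra ℂ L] (z : Fin (N + 1) → L) (b : Fin (n + 1) → L) : Prop :=
  SubVariety X L 1 z b ∧ ∀ P : BiPoly N n, BiHom P → (evK z b P = 0 ↔ ∀ t, ev2 (u t) (v t) P = 0)

theorem low_curve {X : BiSet N n} (hX : FibresLeOne X) {u : ℂ → Fin (N + 1) → ℂ}
    {v : ℂ → Fin (n + 1) → ℂ} (h : X.EntireCurve u v) (hv : ∀ z z', ∃ t : ℂ, v z' = t • v z) :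
    ∃ (L : Type) (_ : Field L) (_ : Algebra ℂ L) (_ : IsFF ℂ L) (x : Fin (N + 1) → L),
      canDeg ℂ L ≤ 0 ∧ (∃ i j, x j ≠ 0 ∧ Transcendental ℂ (x i / x j)) ∧
      IsClosure X u v L x fun j => algebraMap ℂ L (v 0 j) := by
  classical
  have hv0 : v 0 ≠ 0 := (h.mem 0).2.1
  have hnc : ∃ i j a b, u a i * u b j ≠ u a j * u b i := by
    obtain ⟨t1, t2, h1 | h1⟩ := h.nonconst
    · obtain ⟨k1, hk1⟩ : ∃ k, u t1 k ≠ 0 := by
        by_contra hc
        push Not at hc
        exact (h.mem t1).1 (funext hc)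
      by_contra hc
      push Not at hc
      apply h1 (u t2 k1 / u t1 k1)
      funext i
      have h2 := hc i k1 t2 t1
      simp only [Pi.smul_apply, smul_eq_mul]
      field_simp
      linear_combination h2
    · obtain ⟨t, ht⟩ := hv t1 t2
      exact absurd ht (h1 t)
  obtain ⟨ζ, hζ, ⟨j, k, hk, hjk⟩, -⟩ := curve_pt h.diffu (fun t => (h.mem t).1) hnc
  obtain ⟨x, hx, hxgen⟩ := ratios hk
  have hsc : ∀ P : BiPoly N n, BiHom P → ((∀ t, ev2 (u t) (v 0) P = 0) ↔
      ∀ t, ev2 (u t) (v t) P = 0) := by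
    intro P hP
    obtain ⟨a, b, hab⟩ := hP
    constructor
    · intro h1 t
      obtain ⟨c, hc⟩ := hv 0 t
      rw [hc, ev2_smul hab, h1, mul_zero]
    · intro h1 t
      obtain ⟨c, hc⟩ := hv t 0
      rw [hc, ev2_smul hab, h1, mul_zero]
  have key : ∀ P : BiPoly N n, BiHom P →
      (evK x (fun j => algebraMap ℂ (coords ℂ ζ) (v 0 j)) P = 0 ↔ ∀ t, ev2 (u t) (v t) P = 0) :=
    fun P hP => (transfer hζ hk hx (v 0) hP).trans (hsc P hP)
  have hxk : x k = 1 := by
    apply Subtype.ext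
    rw [hx, div_self hk]
    rfl
  have hx0 : x ≠ 0 := fun h0 => by
    rw [h0] at hxk
    exact zero_ne_one hxk
  have hb0 : (fun j => algebraMap ℂ (coords ℂ ζ) (v 0 j)) ≠ 0 := by
    intro h0
    apply hv0
    funext i
    have h1 := congrFun h0 i
    simpa using h1
  have hxgen' : coords ℂ x = ⊤ := by
    rw [← top_le_iff, ← hxgen, IntermediateField.adjoin_le_iff]
    rintro _ ⟨i, rfl⟩
    refine IntermediateField.subset_adjoin _ _ ⟨i, k, by rw [hxk]; exact one_ne_zero, ?_⟩
    rw [hxk, div_one]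
  obtain ⟨w, hw⟩ := Pool.Agent.Q103.SF.exists_trdeg_of_gen hxgen'
  have hsub : SubVariety X (coords ℂ ζ) w x fun j => algebraMap ℂ (coords ℂ ζ) (v 0 j) := by
    refine ⟨hx0, hb0, fun P hP => ?_, hw, ?_⟩
    · rw [key P (X.hom P hP)]
      exact fun t => (h.mem t).2.2 P hP
    · rw [← top_le_iff, ← hxgen']
      exact IntermediateField.adjoin.mono ℂ _ _ subset_union_left
  have hw1 : w ≤ 1 := hX _ _ _ _ hsub fun i j _ => ⟨v 0 i / v 0 j, by rw [map_div₀]⟩
  have hj : Transcendental ℂ (x j) := by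
    intro halg
    obtain ⟨c, hc⟩ := alg_const halg
    apply hjk
    have h1 : ζ j / ζ k = algebraMap ℂ MK c := by
      rw [← hx j, hc]
      rfl
    rw [h1]
    exact Pool.Agent.Y221.AP.MI.algebraMap_mem _
  have hw0 : w ≠ 0 := by
    rintro rfl
    rw [Nat.cast_zero, trdeg_eq_zero_iff] at hw
    exact hj (hw.isAlgebraic (x j))
  obtain rfl : w = 1 := by omega
  have hess : Algebra.EssFiniteType ℂ (coords ℂ ζ) := hsub.ess
  have hff : IsFF ℂ (coords ℂ ζ) := ⟨hess, by rw [hw]; simp⟩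
  refine ⟨coords ℂ ζ, inferInstance, inferInstance, hff, x, ?_, ⟨j, k, ?_, ?_⟩, hsub, key⟩
  · by_contra hcon
    rw [not_le] at hcon
    have h1 := Pool.Agent.Q285.SFG.t_gpc (coords ℂ ζ) (Pool.Agent.Q103.SF.gt_of_canDeg hcon) (x j)
    apply hjk
    rw [← hx j]
    exact h1
  · rw [hxk]
    exact one_ne_zero
  · rw [hxk, div_one]
    exact hj

/-- **Elliptic curves.** -/
theorem ell_of_curve {X : BiSet N n} (hX : FibresLeOne X) (hE : EllipticRigid X)
    {u : ℂ → Fin (N + 1) → ℂ} {v : ℂ → Fin (n + 1) → ℂ} (h : X.EntireCurve u v)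
    (hv : ∀ z z', ∃ t : ℂ, v z' = t • v z) : False := by
  obtain ⟨L, _, _, _, x, hc, ⟨i, j, hj, hij⟩, hsub, -⟩ := low_curve hX h hv
  obtain ⟨E, _, _, _, σ, hell⟩ := Pool.Agent.Q103.SF.exists_ell hc
  have h1 := hE E hell (fun i => σ (x i)) (fun j => σ (algebraMap ℂ L (v 0 j))) ?_ ?_ ?_
  · obtain ⟨c, hc⟩ := h1.1 i j ((map_ne_zero σ).2 hj)
    apply hij
    rw [← map_div₀] at hc
    have h2 : x i / x j = algebraMap ℂ L c := by
      apply RingHom.injective (σ : L →+* E)
      change σ (x i / x j) = σ (algebraMap ℂ L c)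
      rw [hc, AlgHom.commutes]
    rw [h2]
    exact isAlgebraic_algebraMap c
  · intro h0
    have h2 := congrFun h0 j
    exact hj ((map_eq_zero σ).1 h2)
  · intro h0
    apply hsub.b0
    funext l
    have h2 := congrFun h0 l
    exact (map_eq_zero σ).1 h2
  · intro P hP
    have h2 := hsub.mem P hP
    have h3 := comp_aeval_apply (R := ℂ) (f := Sum.elim x fun j => algebraMap ℂ L (v 0 j)) σ P
    unfold evK at h2 ⊢
    rw [h2, map_zero] at h3
    rw [h3]
    congr 2
    funext o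
    rcases o with o | o <;> rfl

end Pool.Agent.V8H90.FG
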