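import Pool.Agent.V8H90.HY.Sub
import Pool.Agent.V8H90.FG.Exc

/-!
Meromorphic images of affine spaces in varieties of general type which are fibred in curves over
subvarieties of projective space.
-/

set_option autoImplicit false

namespace Pool.Agent.V8H90.FG

open FF MvPolynomial Filter Metric Set Topology Pool.Agent.W601.SM Pool.Agent.W601.PH
  Pool.Agent.V8H90.JT Pool.Agent.V8H90.AJ Pool.Agent.W602.GT Pool.Agent.V8H90.LG Pool.Agent.V8H90.HY
open Pool.Agent.Y191 (RF)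

variable {N n : ℕ} {K : Type} [Field K] [Algebra ℂ K]

/-- **Meromorphic images of affine spaces.** -/
theorem mero_of_exc {X : BiSet N n} (hcc : CC X) {z : Fin (N + 1) → K} {b : Fin (n + 1) → K}
    (hX : ∀ P ∈ X.I, evK z b P = 0) {R : BiPoly N n} (hRh : BiHom R)
    (hR0 : ∀ u v, ev2 u v R ≠ 0 → u ≠ 0 ∧ v ≠ 0)
    (hRc : ∀ (u : ℂ → Fin (N + 1) → ℂ) (v : ℂ → Fin (n + 1) → ℂ),
        (∀ j, Differentiable ℂ fun t => u t j) → (∀ t, u t ≠ 0) →
        (∀ t, InVar z b (u t) (v t)) → (∀ t t', ∃ c : ℂ, v t' = c • v t) →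
        ∀ t1, ev2 (u t1) (v t1) R ≠ 0 → ∀ t, ∃ c : ℂ, u t = c • u t1) {g : ℕ}
    {u : (Fin g → ℂ) → Fin (N + 1) → ℂ} {v : (Fin g → ℂ) → Fin (n + 1) → ℂ}
    (h : MeroMap z b g u v) (p0 : Fin g → ℂ) : ev2 (u p0) (v p0) R = 0 := by
  classical
  by_contra hcon
  obtain ⟨hu0, hv0⟩ := hR0 _ _ hcon
  have key : ∀ q, (∃ c : ℂ, u q = c • u p0) ∧ ∃ c : ℂ, v q = c • v p0 := by
    intro q
    let L : ℂ → Fin g → ℂ := fun s => p0 + s • (q - p0)
    have hL : Differentiable ℂ L := by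
      simp only [L]
      fun_prop
    have hL0 : L 0 = p0 := by simp [L]
    have hL1 : L 1 = q := by simp [L]
    have hud : ∀ j, Differentiable ℂ fun t => u (L t) j := fun j => (h.diffu j).comp hL
    have hvd : ∀ j, Differentiable ℂ fun t => v (L t) j := fun j => (h.diffv j).comp hL
    obtain ⟨U, hU1, hU2, hU3⟩ := exists_reduced (u := fun t => u (L t)) hud (t0 := 0)
      (by simp only [hL0]; exact hu0)
    obtain ⟨V, hV1, hV2, hV3⟩ := exists_reduced (u := fun t => v (L t)) hvd (t0 := 0)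
      (by simp only [hL0]; exact hv0)
    obtain ⟨i1, hi1⟩ : ∃ i, u p0 i ≠ 0 := by
      by_contra hc
      push Not at hc
      exact hu0 (funext hc)
    obtain ⟨j1, hj1⟩ : ∃ j, v p0 j ≠ 0 := by
      by_contra hc
      push Not at hc
      exact hv0 (funext hc)
    have hin : ∀ t, InVar z b (U t) (V t) := by
      intro t P hP hP0
      refine third_zero (f := fun t => u (L t) i1) (g := fun t => v (L t) j1)
        (h := fun t => ev2 (U t) (V t) P) (hud i1) (hvd j1) (ev2_diff hU1 hV1 P)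
        (fun t => ?_) (t1 := 0) (by simp only [hL0]; exact hi1) (by simp only [hL0]; exact hj1) t
      obtain ⟨c, hc, hc0⟩ := hU3 t
      obtain ⟨c', hc', hc0'⟩ := hV3 t
      by_cases h1 : u (L t) i1 = 0
      · rw [h1, zero_mul, zero_mul]
      by_cases h2 : v (L t) j1 = 0
      · rw [h2, mul_zero, zero_mul]
      have h3 := hc0 (fun h0 => h1 (congrFun h0 i1))
      have h4 := hc0' (fun h0 => h2 (congrFun h0 j1))
      have h5 := h.mem (L t) P hP hP0
      obtain ⟨α, β, hαβ⟩ := hP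
      rw [hc, hc', hαβ] at h5
      have h6 : c ^ α * c' ^ β ≠ 0 := mul_ne_zero (pow_ne_zero _ h3) (pow_ne_zero _ h4)
      rw [(mul_eq_zero.mp h5).resolve_left h6, mul_zero]
    have hmem : ∀ t, QMem X (noD N n) (U t) (V t) := fun t =>
      ⟨⟨hU2 t, hV2 t, fun P hP => hin t P (X.hom P hP) (hX P hP)⟩, not_mem_noD _ _⟩
    have hVc := hcc U V hU1 hV1 hmem
    have hR1 : ev2 (U 0) (V 0) R ≠ 0 := by
      intro h0
      apply hcon
      obtain ⟨c, hc, -⟩ := hU3 0
      obtain ⟨c', hc', -⟩ := hV3 0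
      simp only [hL0] at hc hc'
      obtain ⟨α, β, hαβ⟩ := hRh
      rw [hc, hc', hαβ, h0, mul_zero]
    have hUc := hRc U V hU1 hU2 hin hVc 0 hR1
    constructor
    · obtain ⟨c, hc, -⟩ := hU3 1
      obtain ⟨c0, hc0, hc0'⟩ := hU3 0
      obtain ⟨c1, hc1⟩ := hUc 1
      simp only [hL0] at hc0 hc0'
      simp only [hL1] at hc
      have h7 := hc0' hu0
      refine ⟨c * c1 * c0⁻¹, ?_⟩
      rw [hc, hc1, hc0]
      simp only [smul_smul]
      congr 1
      field_simp
    · obtain ⟨c, hc, -⟩ := hV3 1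
      obtain ⟨c0, hc0, hc0'⟩ := hV3 0
      obtain ⟨c1, hc1⟩ := hVc 0 1
      simp only [hL0] at hc0 hc0'
      simp only [hL1] at hc
      have h7 := hc0' hv0
      refine ⟨c * c1 * c0⁻¹, ?_⟩
      rw [hc, hc1, hc0]
      simp only [smul_smul]
      congr 1
      field_simp
  rcases h.nonconst with ⟨p, p', i, j, hne⟩ | ⟨p, p', i, j, hne⟩
  · apply hne
    obtain ⟨c, hc⟩ := (key p).1
    obtain ⟨c', hc'⟩ := (key p').1
    rw [hc, hc']
    simp only [Pi.smul_apply, smul_eq_mul]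
    ring
  · apply hne
    obtain ⟨c, hc⟩ := (key p).2
    obtain ⟨c', hc'⟩ := (key p').2
    rw [hc, hc']
    simp only [Pi.smul_apply, smul_eq_mul]
    ring


theorem _root_.Pool.Agent.V8H90.LG.SubVariety.ess {X : BiSet N n} {w : ℕ} {z : Fin (N + 1) → K}
    {b : Fin (n + 1) → K} (h : SubVariety X K w z b) : Algebra.EssFiniteType ℂ K := by
  rw [← IntermediateField.fg_top_iff, ← h.gen]
  refine IntermediateField.fg_adjoin_of_finite (Set.Finite.union ?_ ?_)
  · refine (Set.finite_range fun p : Fin (N + 1) × Fin (N + 1) => z p.1 / z p.2).subset ?_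
    rintro f ⟨i, j, -, rfl⟩
    exact ⟨(i, j), rfl⟩
  · refine (Set.finite_range fun p : Fin (n + 1) × Fin (n + 1) => b p.1 / b p.2).subset ?_
    rintro f ⟨i, j, -, rfl⟩
    exact ⟨(i, j), rfl⟩

/-- **The special set of subvarieties of general type with fibres of dimension at most one.** -/
theorem gt_exc {X : BiSet N n} (hcc : CC X) {w d : ℕ} {z : Fin (N + 1) → K} {b : Fin (n + 1) → K}
    (hW : SubVariety X K w z b) (hd : Algebra.trdeg ℂ (RF ℂ b) = d) (hwd : w ≤ d + 1)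
    (hGT : GeneralType ℂ K w) :
    ∃ R : BiPoly N n, BiHom R ∧ evK z b R ≠ 0 ∧ ∀ g u v, MeroMap z b g u v →
      ∀ p, ev2 (u p) (v p) R = 0 := by
  have h1 := trdeg_add_eq ℂ (RF ℂ b) (A := K)
  have h2 := hW.dim
  rw [hd, h2] at h1
  have hess := hW.ess
  have h3 : w = d ∨ w = d + 1 := by
    have h4 : (d : Cardinal) ≤ w := by
      rw [← h1]
      exact le_self_add
    have h5 : d ≤ w := by exact_mod_cast h4
    omega
  rcases h3 with rfl | rfl
  · have h4 : Algebra.trdeg (RF ℂ b) K = 0 := by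
      have h5 : (w : Cardinal) + Algebra.trdeg (RF ℂ b) K = (w : Cardinal) + 0 := by
        rw [h1, add_zero]
      exact Cardinal.eq_of_add_eq_add_left h5 (Cardinal.natCast_lt_aleph0)
    rw [trdeg_eq_zero_iff] at h4
    exact mero_excF hcc hW.z0 hW.b0 hW.mem h4
  · obtain ⟨R, g1, g2, g3, g4⟩ := fib_exc hW.z0 hW.b0 hW.gen hd hGT
    exact ⟨R, g1, g2, fun g u v h p => mero_of_exc hcc hW.mem g1 g3 g4 h p⟩

end Pool.Agent.V8H90.FG
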