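import Pool.Agent.V8H90.FG.Spz

/-!
Algebraic relations and derivatives under specialisations.
-/

set_option autoImplicit false
set_option linter.unusedSectionVars false

namespace Pool.Agent.V8H90.FG

open Polynomial Filter FF
open Pool.Agent.W603.LV (E2 E2_apply E2_monomial dX chain exists_poly)

section

variable {K : Type} [Field K] [Algebra ℂ K] {L : IntermediateField ℂ K}

/-- polynomials over `L` as polynomials over `K` -/
noncomputable def up (Q : L[X][X]) : K[X][X] := Q.map (mapRingHom (algebraMap L K))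

theorem up_coeff (Q : L[X][X]) (i j : ℕ) : ((up Q).coeff i).coeff j = algebraMap L K ((Q.coeff i).coeff j) := by
  rw [up, coeff_map, coe_mapRingHom, coeff_map]

theorem up_val (Q : L[X][X]) (x y : K) : E2 (k := K) x y (up Q) = E2 (k := L) x y Q := by
  rw [E2_apply, E2_apply, up, eval₂_map]
  congr 1
  ext p
  · simp
  · simp

theorem up_der (Q : L[X][X]) : up (derivative Q) = derivative (up Q) := by
  rw [up, up, derivative_map]

theorem up_dX (Q : L[X][X]) : up (dX Q) = dX (up Q) := by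
  ext i j
  rw [up_coeff, Spz.coeff_dX, Spz.coeff_dX, coeff_derivative, coeff_derivative, up_coeff]
  simp

/-- the chain rule over a subfield of constants -/
theorem chain_L {D : Derivation ℂ K K} (hD : ∀ a ∈ L, D a = 0) (x y : K) (Q : L[X][X]) :
    D (E2 (k := L) x y Q) = E2 (k := L) x y (dX Q) * D x + E2 (k := L) x y (derivative Q) * D y := by
  let D' : Derivation L K K :=
    { toFun := D
      map_add' := map_add D
      map_smul' := fun a f => by
        rw [Algebra.smul_def, Derivation.leibniz, show D (algebraMap L K a) = 0 from hD a a.2,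
          smul_zero, add_zero, RingHom.id_apply, Algebra.smul_def]
        rfl
      map_one_eq_zero' := D.map_one_eq_zero
      leibniz' := fun a b => D.leibniz a b }
  exact chain D' x y Q

/-- a relation whose coefficients generate the unit ideal -/
theorem exists_bez [CharZero L] [IsFF L K] {x : K} (hx : Transcendental L x) (a : K) :
    ∃ (Q : L[X][X]) (s : Finset ℕ) (w : ℕ → L[X]), E2 x a Q = 0 ∧ ∑ i ∈ s, w i * Q.coeff i = 1 := by
  classical
  obtain ⟨G, hG, hG'⟩ := exists_poly hx a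
  have hG0 : G ≠ 0 := by
    rintro rfl
    rw [derivative_zero, map_zero] at hG'
    exact hG' rfl
  obtain ⟨I, hI⟩ : ∃ I : Ideal L[X], I = Ideal.span (Set.range fun i : G.support => G.coeff i) :=
    ⟨_, rfl⟩
  obtain ⟨δ, hδ⟩ := (IsPrincipalIdealRing.principal I).principal
  have hδ0 : δ ≠ 0 := by
    intro h0
    obtain ⟨i, hi⟩ := support_nonempty.2 hG0
    have h1 : G.coeff i ∈ I := by
      rw [hI]
      exact Ideal.subset_span ⟨⟨i, hi⟩, rfl⟩
    rw [hδ, h0] at h1
    have h2 : G.coeff i = 0 := by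
      rw [Submodule.mem_span_singleton] at h1
      obtain ⟨c, hc⟩ := h1
      rw [← hc, smul_zero]
    exact mem_support_iff.1 hi h2
  have hdvd : ∀ i, ∃ q, G.coeff i = δ * q := by
    intro i
    by_cases hi : i ∈ G.support
    · have h1 : G.coeff i ∈ I := by
        rw [hI]
        exact Ideal.subset_span ⟨⟨i, hi⟩, rfl⟩
      rw [hδ, Submodule.mem_span_singleton] at h1
      obtain ⟨c, hc⟩ := h1
      exact ⟨c, by rw [← hc, smul_eq_mul, mul_comm]⟩
    · exact ⟨0, by rw [notMem_support_iff.1 hi, mul_zero]⟩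
  choose q hq using hdvd
  have hδI : δ ∈ Ideal.span (Set.range fun i : G.support => G.coeff i) := by
    rw [← hI, hδ]
    exact Submodule.mem_span_singleton_self δ
  obtain ⟨c, hc⟩ := Ideal.mem_span_range_iff_exists_fun.1 hδI
  obtain ⟨Q, hQ⟩ : ∃ Q : L[X][X], Q = ∑ i ∈ G.support, monomial i (q i) := ⟨_, rfl⟩
  have hQc : ∀ i ∈ G.support, Q.coeff i = q i := by
    intro i hi
    rw [hQ, finsetSum_coeff, Finset.sum_eq_single i]
    · rw [coeff_monomial, if_pos rfl]
    · intro j _ hj
      rw [coeff_monomial, if_neg hj]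
    · exact fun h => absurd hi h
  have hGQ : G = C δ * Q := by
    conv_lhs => rw [G.as_sum_support]
    rw [hQ, Finset.mul_sum]
    refine Finset.sum_congr rfl fun i _ => ?_
    rw [C_mul_monomial, ← hq i]
  refine ⟨Q, G.support, fun i => if h : i ∈ G.support then c ⟨i, h⟩ else 0, ?_, ?_⟩
  · rw [hGQ, map_mul, E2_apply, eval₂_C] at hG
    rcases mul_eq_zero.1 hG with h | h
    · exfalso
      apply hx
      exact ⟨δ, hδ0, h⟩
    · exact h
  · have h1 : ∑ i ∈ G.support, (if h : i ∈ G.support then c ⟨i, h⟩ else 0) * Q.coeff i =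
        ∑ i ∈ G.support.attach, c i * Q.coeff i := by
      rw [← Finset.sum_attach G.support
        (fun i => (if h : i ∈ G.support then c ⟨i, h⟩ else 0) * Q.coeff i)]
      refine Finset.sum_congr rfl fun i _ => ?_
      rw [dif_pos i.2]
    rw [h1]
    have h2 : δ * ∑ i ∈ G.support.attach, c i * Q.coeff i = δ * 1 := by
      rw [Finset.mul_sum, mul_one]
      conv_rhs => rw [← hc]
      rw [Finset.univ_eq_attach]
      refine Finset.sum_congr rfl fun i _ => ?_
      rw [hQc i i.2, hq i]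
      ring
    exact mul_left_cancel₀ hδ0 h2

end

section

variable {K : Type} [Field K] [Algebra ℂ K] {r : ℕ} {g : Fin r → K}

/-- the field of the functions `g j` -/
noncomputable abbrev Lg (g : Fin r → K) : IntermediateField ℂ K := IntermediateField.adjoin ℂ (Set.range g)

theorem up_mem (Q : (Lg g)[X][X]) (i j : ℕ) : ((up Q).coeff i).coeff j ∈ Lg g := by
  rw [up_coeff]
  exact ((Q.coeff i).coeff j).2

/-- **Derivatives under specialisations.** -/
theorem ev_chain [IsFF (Lg g) K] {x : K} (hx : Transcendental (Lg g) x) {D : Derivation ℂ K K}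
    (hD : ∀ a ∈ Lg g, D a = 0) (hDx : D x = 1) (u : K) :
    ∀ᶠ σ in Spz.fil g, ∀ D' : Derivation ℂ σ.E σ.E, D' (σ.f u) = σ.f (D u) * D' (σ.f x) := by
  have : CharZero (Lg g) := charZero_of_injective_algebraMap (algebraMap ℂ (Lg g)).injective
  obtain ⟨G, hG, hG'⟩ := exists_poly hx u
  have h1 := chain_L hD x u G
  rw [hG, map_zero, hDx, mul_one] at h1
  filter_upwards [Spz.ev_sp2 (up_mem G), Spz.ev_mem x, Spz.ev_mem u, Spz.ev_mem (D u),
    Spz.ev_mem (E2 x u (derivative G)), Spz.ev_mem (E2 x u (derivative G))⁻¹] with σ h2 hxO huO hDO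
    hGO hGO' D'
  have e0 := (h2.val hxO huO).2
  have e1 := (h2.derivative.val hxO huO).2
  have e2 := (h2.dX.val hxO huO)
  rw [up_val, hG, σ.f_zero] at e0
  rw [← up_der, up_val] at e1
  rw [← up_dX, up_val] at e2
  have h3 := chain D' (σ.f x) (σ.f u) (σ.sp2 (up G))
  rw [← e0, map_zero, ← e1, ← e2.2] at h3
  have h4 := (σ.f_inv hG' hGO hGO').1
  have h5 : σ.f (E2 x u (dX G)) = -(σ.f (E2 x u (derivative G)) * σ.f (D u)) := by
    rw [← σ.f_mul hGO hDO, ← σ.f_neg (σ.O.mul_mem hGO hDO)]
    congr 1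
    linear_combination -h1
  rw [h5] at h3
  have h6 : σ.f (E2 x u (derivative G)) * (D' (σ.f u) - σ.f (D u) * D' (σ.f x)) = 0 := by
    linear_combination -h3
  rcases mul_eq_zero.1 h6 with h7 | h7
  · exact absurd h7 h4
  · exact sub_eq_zero.1 h7

/-- **Algebraic relations under specialisations.** -/
theorem ev_rel [IsFF (Lg g) K] {x : K} (hx : Transcendental (Lg g) x) (a : K) :
    ∀ᶠ σ in Spz.fil g, ∃ Q : ℂ[X][X], E2 (σ.f x) (σ.f a) Q = 0 ∧
      ∀ c : ℂ, Q.map (evalRingHom c) ≠ 0 := by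
  have : CharZero (Lg g) := charZero_of_injective_algebraMap (algebraMap ℂ (Lg g)).injective
  obtain ⟨Q, s, w, hQ, hw⟩ := exists_bez hx a
  have hw' : ∑ i ∈ s, (w i).map (algebraMap (Lg g) K) * (up Q).coeff i = 1 := by
    have h1 := congrArg (Polynomial.map (algebraMap (Lg g) K)) hw
    rw [Polynomial.map_sum, Polynomial.map_one] at h1
    rw [← h1]
    refine Finset.sum_congr rfl fun i _ => ?_
    rw [Polynomial.map_mul, up, coeff_map, coe_mapRingHom]
  have h2 : ∀ᶠ σ in Spz.fil g, ∀ i ∈ s, σ.Sp1 ((w i).map (algebraMap (Lg g) K))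
      (σ.sp1 ((w i).map (algebraMap (Lg g) K))) := by
    rw [Filter.eventually_all_finset]
    exact fun i _ => Spz.ev_sp1 fun j => by
      rw [coeff_map]
      exact ((w i).coeff j).2
  filter_upwards [Spz.ev_sp2 (up_mem Q), h2, Spz.ev_mem x, Spz.ev_mem a] with σ h3 h4 hxO haO
  refine ⟨σ.sp2 (up Q), ?_, fun c hc => ?_⟩
  · rw [← (h3.val hxO haO).2, up_val, hQ, σ.f_zero]
  · have h5 : σ.Sp1 (∑ i ∈ s, (w i).map (algebraMap (Lg g) K) * (up Q).coeff i)
        (∑ i ∈ s, σ.sp1 ((w i).map (algebraMap (Lg g) K)) * (σ.sp2 (up Q)).coeff i) :=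
      Spz.Sp1.sum s fun i hi => (h4 i hi).mul (h3 i)
    rw [hw'] at h5
    have h6 := h5.unique (Spz.Sp1.one σ)
    have h7 := congrArg (eval c) h6
    rw [eval_one, eval_finsetSum, Finset.sum_eq_zero] at h7
    · exact zero_ne_one h7
    · intro i _
      rw [eval_mul]
      have h8 := congrArg (fun P : ℂ[X] => P.coeff i) hc
      simp only [coeff_map, coe_evalRingHom, coeff_zero] at h8
      rw [h8, mul_zero]

theorem alg_const {E : Type} [Field E] [Algebra ℂ E] {a : E} (h : IsAlgebraic ℂ a) :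
    ∃ c : ℂ, a = algebraMap ℂ E c := by
  have h2 := IsAlgClosed.degree_eq_one_of_irreducible ℂ (minpoly.irreducible h.isIntegral)
  obtain ⟨c, hc⟩ := minpoly.mem_range_of_degree_eq_one ℂ a h2
  exact ⟨c, hc.symm⟩

/-- if `x` becomes a constant, `a` does -/
theorem const_of_rel {E : Type} [Field E] [Algebra ℂ E] {x a : E} {Q : ℂ[X][X]} (h : E2 x a Q = 0)
    (hQ : ∀ c : ℂ, Q.map (evalRingHom c) ≠ 0) {c : ℂ} (hx : x = algebraMap ℂ E c) :
    ∃ c' : ℂ, a = algebraMap ℂ E c' := by
  refine alg_const ⟨Q.map (evalRingHom c), hQ c, ?_⟩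
  rw [aeval_def, eval₂_map, ← h, E2_apply]
  congr 1
  ext p
  · simp
  · simp [hx]

/-- algebraic elements become algebraic -/
theorem alg_of_rel {E : Type} [Field E] [Algebra ℂ E] {x a : E} {Q : ℂ[X][X]} (h : E2 x a Q = 0)
    (hQ : ∀ c : ℂ, Q.map (evalRingHom c) ≠ 0) (hx : Transcendental ℂ x) :
    IsAlgebraic (IntermediateField.adjoin ℂ {x}) a := by
  let y : IntermediateField.adjoin ℂ {x} := ⟨x, IntermediateField.mem_adjoin_simple_self ℂ x⟩
  let ψ : ℂ[X] →+* IntermediateField.adjoin ℂ {x} :=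
    ((aeval y : ℂ[X] →ₐ[ℂ] IntermediateField.adjoin ℂ {x}) : ℂ[X] →+* _)
  have hψ : ∀ p : ℂ[X], algebraMap (IntermediateField.adjoin ℂ {x}) E (ψ p) = aeval x p := by
    intro p
    have : algebraMap (IntermediateField.adjoin ℂ {x}) E (aeval y p) =
        aeval (algebraMap (IntermediateField.adjoin ℂ {x}) E y) p := by
      rw [aeval_algebraMap_apply]
    exact this
  refine ⟨Q.map ψ, ?_, ?_⟩
  · intro h0
    apply hQ 0
    have h1 : Q = 0 := by
      ext1 i
      have h2 := congrArg (fun P => P.coeff i) h0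
      simp only [coeff_map, coeff_zero] at h2
      have h3 := hψ (Q.coeff i)
      rw [h2, map_zero] at h3
      by_contra hne
      exact hx ⟨Q.coeff i, hne, h3.symm⟩
    rw [h1, Polynomial.map_zero]
  · rw [aeval_def, eval₂_map, ← h, E2_apply]
    congr 1
    refine RingHom.ext fun p => ?_
    exact hψ p

end

end Pool.Agent.V8H90.FG
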